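import Pool.Agent.MP_ee8c61_ag.M3.Eu
import Pool.Agent.MP_ee8c61_ag.H36.BasicE
import Pool.Agent.MP_96693b_ag.DR.RAff

/-! Row CHI: the Euler characteristic of constructible sets of points. -/

namespace Pool.Agent.MP_ee8c61_ag.M3L

open Set M3
open Pool.Agent.MP_96693b_ag.RS (Loc LocOf)

namespace RChi

variable {L : Type} [Field L] [Algebra ℂ L] {κ κ' : Type} {χ : H36.Chi}

theorem reg_af (y : κ → L) : RegOn y (Af y) := fun _ hP k =>
  LocOf.le hP (Algebra.subset_adjoin ⟨k, rfl⟩)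

theorem inj_af (y : κ → L) : InjOn (vl y) (Af y) := by
  intro P hP Q hQ e
  have hP : LocOf _ P := hP
  have hQ : LocOf _ Q := hQ
  have h : ∀ g ∈ Algebra.adjoin ℂ (range y), P.ev g = Q.ev g := fun g hg => by
    induction hg using Algebra.adjoin_induction with
    | mem x hx =>
      obtain ⟨k, rfl⟩ := hx
      exact congrFun e k
    | algebraMap r => rw [P.ev_alg, Q.ev_alg]
    | add a b ha hb h1 h2 =>
      rw [P.ev_add _ (hP.le ha) _ (hP.le hb), Q.ev_add _ (hQ.le ha) _ (hQ.le hb), h1, h2]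
    | mul a b ha hb h1 h2 =>
      rw [P.ev_mul _ (hP.le ha) _ (hP.le hb), Q.ev_mul _ (hQ.le ha) _ (hQ.le hb), h1, h2]
  exact Loc.ext' (le_antisymm (hP.le_of_ev hQ.le fun g hg => (h g hg).symm) (hQ.le_of_ev hP.le h))

theorem proj (H : H36.IsEuler χ) [Finite κ] [Finite κ'] (z : κ' → L) (e : κ → κ') {W : Set (Loc L)}
    (hc : H36.Con (vl z '' W)) (hi : InjOn (vl (z ∘ e)) W) :
    χ κ (vl (z ∘ e) '' W) = χ κ' (vl z '' W) := by
  rw [← H.bij κ' κ (fun k => MvPolynomial.X (e k)) _ hc ?_, image_image]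
  · simp only [MvPolynomial.eval_X]
    rfl
  · rintro _ ⟨P, hP, rfl⟩ _ ⟨Q, hQ, rfl⟩ h
    simp only [MvPolynomial.eval_X] at h
    rw [hi hP hQ h]

theorem indep (C : ConOK L) (H : H36.IsEuler χ) [Finite κ] [Finite κ'] {y : κ → L} {y' : κ' → L}
    {W : Set (Loc L)} (hW : ConP W) (r : RegOn y W) (i : InjOn (vl y) W) (r' : RegOn y' W)
    (i' : InjOn (vl y') W) : χ κ (vl y '' W) = χ κ' (vl y' '' W) := by
  have hc := C.img W (κ ⊕ κ') (Sum.elim y y') hW fun P hP k => by
    cases k with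
    | inl k => exact r P hP k
    | inr k => exact r' P hP k
  exact (proj H (Sum.elim y y') Sum.inl hc i).trans (proj H (Sum.elim y y') Sum.inr hc i').symm

theorem con {W : Set (Loc L)} {n : ℤ} (h : HasChi χ W n) : ConP W := by
  induction h with
  | pc κ y S hS => exact .pc κ y S hS
  | union _ _ _ h1 h2 => exact h1.union h2

theorem addc (C : ConOK L) (H : H36.IsEuler χ) [Finite κ] {y : κ → L} {W W' : Set (Loc L)}
    (h1 : ConP W) (h2 : ConP W') (hd : Disjoint W W') (r : RegOn y (W ∪ W'))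
    (i : InjOn (vl y) (W ∪ W')) :
    χ κ (vl y '' (W ∪ W')) = χ κ (vl y '' W) + χ κ (vl y '' W') := by
  rw [image_union]
  exact H.add κ _ _ (C.img _ κ y h1 fun P hP => r P (Or.inl hP))
    (C.img _ κ y h2 fun P hP => r P (Or.inr hP))
    (hd.image i subset_union_left subset_union_right)

theorem crd (C : ConOK L) (H : H36.IsEuler χ) [Finite κ] {y : κ → L} {W : Set (Loc L)} {n : ℤ}
    (h : HasChi χ W n) (r : RegOn y W) (i : InjOn (vl y) W) : n = χ κ (vl y '' W) := by
  induction h with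
  | pc κ' y' S hS =>
    exact indep C H (.pc κ' y' S hS) (fun P hP => reg_af y' P hP.1)
      ((inj_af y').mono inter_subset_left) r i
  | union h1 h2 hd i1 i2 =>
    rw [addc C H (con h1) (con h2) hd r i, i1 (fun P hP => r P (Or.inl hP))
      (i.mono subset_union_left), i2 (fun P hP => r P (Or.inr hP)) (i.mono subset_union_right)]

theorem piece (C : ConOK L) [Finite κ] (y : κ → L) {W : Set (Loc L)} (hW : ConP W)
    (h : W ⊆ Af y) : HasChi χ W (χ κ (vl y '' W)) := by
  have e : Af y ∩ vl y ⁻¹' (vl y '' W) = W := by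
    rw [inter_comm]
    exact (inj_af y).preimage_image_inter h
  have := HasChi.pc (χ := χ) κ y _ (C.img W κ y hW fun P hP => reg_af y P (h hP))
  rwa [e] at this

theorem split (C : ConOK L) (H : H36.IsEuler χ) {W V : Set (Loc L)} {n : ℤ} (h : HasChi χ W n)
    (hV : ConP V) : ∃ n1 n2, HasChi χ (W ∩ V) n1 ∧ HasChi χ (W \ V) n2 ∧ n = n1 + n2 := by
  induction h with
  | pc κ y S hS =>
    have h0 : ConP (Af y ∩ vl y ⁻¹' S) := .pc κ y S hS
    refine ⟨_, _, piece C y (C.inter _ _ h0 hV) fun P hP => hP.1.1,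
      piece C y (C.diff _ _ h0 hV) fun P hP => hP.1.1, ?_⟩
    rw [← addc C H (C.inter _ _ h0 hV) (C.diff _ _ h0 hV)
      (disjoint_sdiff_right.mono_left inter_subset_right) ?_ ?_, inter_union_sdiff]
    · rw [inter_union_sdiff]
      exact fun P hP => reg_af y P hP.1
    · rw [inter_union_sdiff]
      exact (inj_af y).mono inter_subset_left
  | union _ _ hd i1 i2 =>
    obtain ⟨a1, a2, h1, h2, rfl⟩ := i1
    obtain ⟨b1, b2, h3, h4, rfl⟩ := i2
    refine ⟨a1 + b1, a2 + b2, ?_, ?_, by ring⟩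
    · rw [union_inter_distrib_right]
      exact h1.union h3 (hd.mono inter_subset_left inter_subset_left)
    · rw [union_sdiff_distrib]
      exact h2.union h4 (hd.mono sdiff_subset sdiff_subset)

theorem con_empty : ConP (∅ : Set (Loc L)) := by
  simpa using ConP.pc (L := L) Empty (fun e => e.elim) ∅ H36.Con.empty

theorem ex (C : ConOK L) {W : Set (Loc L)} (h : ConP W) :
    ∀ V, ConP V → ∃ n, HasChi χ (W \ V) n := by
  induction h with
  | pc κ y S hS =>
    exact fun V hV => ⟨_, piece C y (C.diff _ _ (.pc κ y S hS) hV) fun P hP => hP.1.1⟩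
  | @union W1 W2 h1 _ i1 i2 =>
    intro V hV
    obtain ⟨n1, k1⟩ := i1 V hV
    obtain ⟨n2, k2⟩ := i2 (V ∪ W1) (hV.union h1)
    have e : (W1 ∪ W2) \ V = W1 \ V ∪ W2 \ (V ∪ W1) := by
      ext P
      simp only [mem_sdiff, mem_union]
      tauto
    exact ⟨_, e ▸ k1.union k2 (disjoint_left.2 fun P hP hQ => hQ.2 (Or.inr hP.1))⟩

theorem uniq (C : ConOK L) (H : H36.IsEuler χ) {W : Set (Loc L)} {n : ℤ} (h : HasChi χ W n) :
    ∀ n', HasChi χ W n' → n = n' := by
  induction h with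
  | pc κ y S hS =>
    exact fun n' h' => (crd C H h' (fun P hP => reg_af y P hP.1)
      ((inj_af y).mono inter_subset_left)).symm
  | @union W1 W2 _ _ h1 _ hd i1 i2 =>
    intro n' h'
    obtain ⟨a, b, k1, k2, rfl⟩ := split C H h' (con h1)
    rw [union_inter_cancel_left] at k1
    rw [union_sdiff_left, hd.symm.sdiff_eq_left] at k2
    rw [i1 a k1, i2 b k2]

theorem has (C : ConOK L) {W : Set (Loc L)} (h : ConP W) : HasChi χ W (chiP χ W) :=
  Classical.epsilon_spec (p := HasChi χ W) (by simpa using ex C h ∅ con_empty)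

end RChi

theorem ofChi : M3.OfCHI := fun hC χ L _ _ H =>
  ⟨fun _ _ h1 h2 hd => RChi.uniq (hC L) H (RChi.has (hC L) (h1.union h2)) _
      ((RChi.has (hC L) h1).union (RChi.has (hC L) h2) hd),
    fun _ _ _ _ h r i => RChi.crd (hC L) H (RChi.has (hC L) h) r i⟩

end Pool.Agent.MP_ee8c61_ag.M3L
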