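import Pool.Agent.MP_ee8c61_ag.M3L.Chev
import Pool.Agent.MP_96693b_ag.DR.RAff

/-! The calculus of constructible sets of points of a function field. -/

set_option autoImplicit false

namespace Pool.Agent.MP_ee8c61_ag.M3L

open Set MvPolynomial M3
open Pool.Agent.MP_96693b_ag.RS (Loc LocOf)

namespace RCon

variable {L : Type} [Field L] [Algebra ℂ L] {κ κ' : Type} {y : κ → L} {y' : κ' → L} {P : Loc L}

theorem aeval_mem (h : ∀ k, y k ∈ P.O) (p : MvPolynomial κ ℂ) :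
    aeval y p ∈ P.O ∧ P.ev (aeval y p) = eval (vl y P) p := by
  induction p using MvPolynomial.induction_on with
  | C a => rw [aeval_C, eval_C]; exact ⟨P.O.algebraMap_mem a, P.ev_alg a⟩
  | add p q hp hq =>
    rw [map_add, map_add]
    exact ⟨add_mem hp.1 hq.1, by rw [P.ev_add _ hp.1 _ hq.1, hp.2, hq.2]⟩
  | mul_X p k hp =>
    rw [map_mul, map_mul, aeval_X, eval_X]
    exact ⟨mul_mem hp.1 (h k), by rw [P.ev_mul _ hp.1 _ (h k), hp.2]; rfl⟩

theorem mem_adj {g : L} : g ∈ Algebra.adjoin ℂ (range y) ↔ ∃ p : MvPolynomial κ ℂ, aeval y p = g := by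
  rw [Algebra.adjoin_range_eq_range_aeval]
  rfl

theorem af_reg (h : P ∈ Af y) (k : κ) : y k ∈ P.O :=
  LocOf.le h (Algebra.subset_adjoin ⟨k, rfl⟩)

theorem adj_le (h : ∀ k, y k ∈ P.O) : Algebra.adjoin ℂ (range y) ≤ P.O :=
  Algebra.adjoin_le (range_subset_iff.2 h)

theorem adj_fg [Finite κ] (y : κ → L) : (Algebra.adjoin ℂ (range y)).FG :=
  Subalgebra.fg_def.2 ⟨_, finite_range y, rfl⟩

/-- The points at which a denominator of `g` does not vanish. -/
def Dn (y : κ → L) (g : L) : Set (κ → ℂ) :=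
  {c | ∃ q p : MvPolynomial κ ℂ, eval c q ≠ 0 ∧ g * aeval y q = aeval y p}

theorem con_Dn [Finite κ] (y : κ → L) (g : L) : H36.Con (Dn y g) :=
  (con_zero {q | ∃ p, g * aeval y q = aeval y p}).compl.of_iff fun c =>
    ⟨fun ⟨q, p, h1, h2⟩ h => h1 (h q ⟨p, h2⟩), fun h => by
      by_contra hn
      exact h fun q ⟨p, hp⟩ => by_contra fun h1 => hn ⟨q, p, h1, hp⟩⟩

theorem mem_of_Dn (h : ∀ k, y k ∈ P.O) {g : L} (hg : vl y P ∈ Dn y g) : g ∈ P.O := by
  obtain ⟨q, p, h1, h2⟩ := hg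
  rw [← (aeval_mem h q).2] at h1
  rw [eq_div_of_mul_eq (Loc.ne_zero_of_ev h1) h2]
  exact Loc.div_mem (aeval_mem h p).1 (aeval_mem h q).1 h1

theorem mem_iff (h : P ∈ Af y) (g : L) : g ∈ P.O ↔ vl y P ∈ Dn y g := by
  refine ⟨fun hg => ?_, mem_of_Dn (af_reg h)⟩
  obtain ⟨p, hp, q, hq, h1, h2⟩ := LocOf.frac h g hg
  obtain ⟨p, rfl⟩ := mem_adj.1 hp
  obtain ⟨q, rfl⟩ := mem_adj.1 hq
  exact ⟨q, p, by rwa [← (aeval_mem (af_reg h) q).2], h2⟩

theorem af_iff [Finite κ'] (h : P ∈ Af y) :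
    P ∈ Af y' ↔ (∀ k, y' k ∈ P.O) ∧ ∀ k, vl y' P ∈ Dn y' (y k) := by
  refine ⟨fun h' => ⟨af_reg h', fun k => (mem_iff h' _).1 (af_reg h k)⟩, fun ⟨h1, h2⟩ => ?_⟩
  obtain ⟨Q, hQ, hle⟩ := Pool.Agent.MP_96693b_ag.RS.exists_locOf_le (adj_fg y') (adj_le h1)
  have e : vl y' P = vl y' Q := funext fun k => Loc.ev_eq_of_le hle (af_reg hQ k)
  have h3 : Algebra.adjoin ℂ (range y) ≤ Q.O :=
    adj_le fun k => (mem_iff hQ _).2 (e ▸ h2 k)
  have h4 := LocOf.le_of_ev h h3 fun g hg => (Loc.ev_eq_of_le hle (h3 hg)).symm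
  rw [Loc.ext' (le_antisymm h4 hle)]
  exact hQ

/-- The relations between the functions `y`. -/
def Zr (y : κ → L) : Set (κ → ℂ) :=
  {c | ∀ p ∈ {p : MvPolynomial κ ℂ | aeval y p = 0}, eval c p = 0}

theorem vl_mem_Zr (h : ∀ k, y k ∈ P.O) : vl y P ∈ Zr y := fun p hp => by
  rw [← (aeval_mem h p).2, show aeval y p = 0 from hp, Loc.ev_zero]

theorem exists_af [Finite κ] {c : κ → ℂ} (h : c ∈ Zr y) : ∃ P ∈ Af y, vl y P = c := by
  let φ : MvPolynomial κ ℂ →ₐ[ℂ] Algebra.adjoin ℂ (range y) :=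
    (aeval y).codRestrict _ fun p => mem_adj.2 ⟨p, rfl⟩
  have hφ : Function.Surjective φ := fun g => (mem_adj.1 g.2).imp fun _ hp => Subtype.ext hp
  let b : Algebra.adjoin ℂ (range y) →ₐ[ℂ] ℂ := AlgHom.liftOfSurjective φ hφ (aeval c)
    fun p hp => h p (congrArg Subtype.val hp)
  obtain ⟨P, h1, h2⟩ := Pool.Agent.MP_96693b_ag.RS.exists_locOf (adj_fg y) b
  refine ⟨P, h1, funext fun k => ?_⟩
  have h3 := (h2 (φ (X k))).trans (AlgHom.liftOfSurjective_apply φ hφ _ _ _)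
  rw [aeval_X] at h3
  rw [← h3]
  exact congrArg P.ev (aeval_X y k).symm

theorem graph_iff (h : P ∈ Af y) (h' : ∀ k, y' k ∈ P.O) (c : κ' → ℂ) :
    Sum.elim (vl y P) c ∈ Zr (Sum.elim y y') ↔ c = vl y' P := by
  constructor
  · intro hc
    funext k
    obtain ⟨q, p, h1, h2⟩ := (mem_iff h _).1 (h' k)
    have h3 := hc (X (Sum.inr k) * rename Sum.inl q - rename Sum.inl p) (by
      simpa [aeval_rename, sub_eq_zero] using h2)
    have h4 := congrArg P.ev h2
    rw [P.ev_mul _ (h' k) _ (aeval_mem (af_reg h) q).1, (aeval_mem (af_reg h) q).2,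
      (aeval_mem (af_reg h) p).2] at h4
    simp only [map_sub, map_mul, eval_X, eval_rename, Sum.elim_inr, Sum.elim_comp_inl,
      sub_eq_zero] at h3
    exact mul_right_cancel₀ h1 (h3.trans h4.symm)
  · rintro rfl
    have h1 := vl_mem_Zr (P := P) (y := Sum.elim y y') (Sum.rec (af_reg h) h')
    have e : vl (Sum.elim y y') P = Sum.elim (vl y P) (vl y' P) := funext (Sum.rec (fun _ => rfl)
      fun _ => rfl)
    rwa [e] at h1

theorem zr_inl {x : κ ⊕ κ' → ℂ} (h : x ∈ Zr (Sum.elim y y')) : (fun k => x (Sum.inl k)) ∈ Zr y :=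
  fun p hp => by
    have h1 := h (rename Sum.inl p) (by simpa [aeval_rename] using hp)
    rwa [eval_rename] at h1

theorem con_proj {ι : Type} [Finite ι] [Finite κ] (e : κ → ι) {S : Set (ι → ℂ)} (h : H36.Con S) :
    H36.Con ((fun x k => x (e k)) '' S) := by
  simpa only [eval_X] using chev (fun k => X (e k)) h

theorem pre_set [Finite κ] [Finite κ'] (y : κ → L) (y' : κ' → L) {S : Set (κ' → ℂ)} (hS : H36.Con S) :
    ∃ T, H36.Con T ∧ ∀ P ∈ Af y, (∀ k, y' k ∈ P.O) → (vl y' P ∈ S ↔ vl y P ∈ T) := by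
  refine ⟨_, con_proj Sum.inl ((con_zero {p | aeval (Sum.elim y y') p = 0}).inter
    (hS.comap Sum.inr)), fun P h h' => ⟨fun h1 => ?_, ?_⟩⟩
  · exact ⟨Sum.elim (vl y P) (vl y' P), ⟨(graph_iff h h' _).2 rfl, h1⟩, rfl⟩
  · rintro ⟨x, ⟨h1, h2⟩, h3⟩
    have e : x = Sum.elim (vl y P) fun k => x (Sum.inr k) :=
      funext (Sum.rec (fun k => congrFun h3 k) fun _ => rfl)
    rw [e] at h1
    rwa [← (graph_iff h h' _).1 h1]

theorem trace [Finite κ] (y : κ → L) {W : Set (Loc L)} (h : ConP W) :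
    ∃ T, H36.Con T ∧ ∀ P ∈ Af y, (P ∈ W ↔ vl y P ∈ T) := by
  induction h with
  | pc κ' y' S hS =>
    obtain ⟨T, h1, h2⟩ := pre_set y y' (hS.inter (H36.Con.all fun k => con_Dn y' (y k)))
    refine ⟨_, h1.inter (H36.Con.all fun k => con_Dn y (y' k)), fun P hP => ⟨fun ⟨a, b⟩ => ?_, ?_⟩⟩
    · obtain ⟨a1, a2⟩ := (af_iff hP).1 a
      exact ⟨(h2 P hP a1).1 ⟨b, a2⟩, fun k => (mem_iff hP _).1 (a1 k)⟩
    · rintro ⟨a, b⟩
      have a1 := fun k => (mem_iff hP _).2 (b k)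
      obtain ⟨a2, a3⟩ := (h2 P hP a1).2 a
      exact ⟨(af_iff hP).2 ⟨a1, a3⟩, a2⟩
  | union _ _ ih ih' =>
    obtain ⟨T, h1, h2⟩ := ih
    obtain ⟨T', h3, h4⟩ := ih'
    exact ⟨_, h1.union h3, fun P hP => or_congr (h2 P hP) (h4 P hP)⟩

theorem conP_of [Finite κ] (y : κ → L) {S : Set (κ → ℂ)} (hS : H36.Con S) {W : Set (Loc L)}
    (h : ∀ P, P ∈ W ↔ P ∈ Af y ∧ vl y P ∈ S) : ConP W := by
  rw [show W = Af y ∩ vl y ⁻¹' S from Set.ext h]
  exact ConP.pc κ y S hS

end RCon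

open RCon

theorem af_inj {L : Type} [Field L] [Algebra ℂ L] {κ : Type} (y : κ → L) : InjOn (vl y) (Af y) := by
  intro P hP Q hQ e
  have h : ∀ g ∈ Algebra.adjoin ℂ (range y), P.ev g = Q.ev g := fun g hg => by
    obtain ⟨p, rfl⟩ := mem_adj.1 hg
    rw [(aeval_mem (af_reg hP) p).2, (aeval_mem (af_reg hQ) p).2, e]
  exact Loc.ext' (le_antisymm (LocOf.le_of_ev hP (LocOf.le hQ) fun g hg => (h g hg).symm)
    (LocOf.le_of_ev hQ (LocOf.le hP) h))

theorem scon : M3.SCON := by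
  intro L _ _
  refine ⟨fun W W' h h' => ?_, fun W W' h h' => ?_, fun W g h => ?_,
    fun W κ' _ y' S' h hr hS' => ?_, fun W κ' _ y' h hr => ?_⟩
  · induction h with
    | pc κ y S hS =>
      obtain ⟨T, h1, h2⟩ := trace y h'
      exact conP_of y (hS.inter h1) fun P =>
        and_assoc.trans (and_congr_right fun hP => and_congr_right fun _ => h2 P hP)
    | union _ _ ih ih' =>
      rw [union_inter_distrib_right]
      exact ih.union ih'
  · induction h with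
    | pc κ y S hS =>
      obtain ⟨T, h1, h2⟩ := trace y h'
      exact conP_of y (hS.diff h1) fun P =>
        and_assoc.trans (and_congr_right fun hP => and_congr_right fun _ => not_congr (h2 P hP))
    | union _ _ ih ih' =>
      rw [union_sdiff_distrib]
      exact ih.union ih'
  · induction h with
    | pc κ y S hS =>
      exact conP_of y (hS.inter (con_Dn y g)) fun P =>
        and_assoc.trans (and_congr_right fun hP => and_congr_right fun _ => mem_iff hP g)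
    | union _ _ ih ih' =>
      exact (sep_union ..).symm ▸ ih.union ih'
  · induction h with
    | pc κ y S hS =>
      obtain ⟨T, h1, h2⟩ := pre_set y y' hS'
      exact conP_of y (hS.inter h1) fun P =>
        and_assoc.trans (and_congr_right fun hP => and_congr_right fun h3 =>
          h2 P hP (hr P ⟨hP, h3⟩))
    | union _ _ ih ih' =>
      rw [union_inter_distrib_right]
      exact (ih fun P hP => hr P (Or.inl hP)).union (ih' fun P hP => hr P (Or.inr hP))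
  · induction h with
    | pc κ y S hS =>
      refine (con_proj Sum.inr ((con_zero {p | aeval (Sum.elim y y') p = 0}).inter
        (hS.comap Sum.inl))).of_iff fun c => ⟨?_, ?_⟩
      · rintro ⟨P, hP, rfl⟩
        exact ⟨Sum.elim (vl y P) (vl y' P), ⟨(graph_iff hP.1 (hr P hP) _).2 rfl, hP.2⟩, rfl⟩
      · rintro ⟨x, ⟨h1, h2⟩, rfl⟩
        obtain ⟨P, hP, h3⟩ := exists_af (zr_inl h1)
        have h4 : P ∈ Af y ∩ vl y ⁻¹' S := ⟨hP, by rw [mem_preimage, h3]; exact h2⟩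
        have e : x = Sum.elim (vl y P) fun k => x (Sum.inr k) :=
          funext (Sum.rec (fun k => (congrFun h3 k).symm) fun _ => rfl)
        rw [e] at h1
        exact ⟨P, h4, ((graph_iff hP (hr P h4) _).1 h1).symm⟩
    | union _ _ ih ih' =>
      rw [image_union]
      exact (ih fun P hP => hr P (Or.inl hP)).union (ih' fun P hP => hr P (Or.inr hP))

end Pool.Agent.MP_ee8c61_ag.M3L
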