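import Pool.Agent.MP_ee8c61_ag.M3.Mod
import Pool.Agent.MP_ee8c61_ag.H95G.Main
import Pool.Agent.MP_ee8c61_ag.H59.Final

/-!
The system of charts cut out by an ample cover of a model: normality of the charts, the
polarization, the functional equation.
-/

set_option autoImplicit false

namespace Pool.Agent.MP_ee8c61_ag.M3L

open H59 M3 MvPolynomial
open scoped TensorProduct

noncomputable section

section Normal

theorem reg (A R : Type) [CommRing A] [CommRing R] [Algebra A R] [Algebra.EssFiniteType A R]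
    [Algebra.FormallyUnramified A R] (K : Type) [Field K]
    [Algebra A K] (x : R ⊗[A] K) : ∃ y, x * (1 - x * y) = 0 := by
  have : Module.Finite K (K ⊗[A] R) := Algebra.FormallyUnramified.finite_of_free _ _
  have : IsReduced (K ⊗[A] R) := Algebra.FormallyUnramified.isReduced_of_field K _
  have : IsArtinianRing (K ⊗[A] R) := IsArtinianRing.of_finite K _
  obtain ⟨r, rfl⟩ := (Algebra.TensorProduct.comm A K R).surjective x
  obtain ⟨n, y, h⟩ := IsArtinian.exists_pow_succ_smul_dvd r (1 : K ⊗[A] R)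
  rw [smul_eq_mul, smul_eq_mul, mul_one, pow_succ] at h
  have h1 : r * (1 - r * y) = 0 := IsNilpotent.eq_zero ⟨n + 1, by
    rw [mul_pow, pow_succ, pow_succ]
    linear_combination (-(r * (1 - r * y) ^ n)) * h⟩
  refine ⟨Algebra.TensorProduct.comm A K R y, ?_⟩
  rw [← map_mul, ← map_one (Algebra.TensorProduct.comm A K R), ← map_sub, ← map_mul, h1, map_zero]

/-- Etale domains over a normal domain are normal. -/
theorem normal_of_etale (P A : Type) [CommRing P] [IsDomain P] [IsIntegrallyClosed P] [CommRing A]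
    [IsDomain A] [Algebra P A] [Algebra.Etale P A] : IsIntegrallyClosed A := by
  have hB : Function.Bijective (TensorProduct.toIntegralClosure P A (FractionRing P)) :=
    TensorProduct.toIntegralClosure_bijective_of_smooth
  have h1 : Algebra.algebraMapSubmonoid A (nonZeroDivisors P) ≤ nonZeroDivisors A := by
    rintro _ ⟨a, ha, rfl⟩
    refine mem_nonZeroDivisors_of_ne_zero fun h0 => ?_
    have h1 : IsSMulRegular A a := Module.Flat.isSMulRegular_of_nonZeroDivisors ha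
    exact one_ne_zero (h1 (show a • (1 : A) = a • (0 : A) by
      rw [← Algebra.algebraMap_eq_smul_one, h0, smul_zero]))
  have inj : Function.Injective (algebraMap A (A ⊗[P] FractionRing P)) :=
    IsLocalization.injective _ h1
  have : IsDomain (A ⊗[P] FractionRing P) :=
    IsLocalization.isDomain_of_le_nonZeroDivisors _ h1
  have : IsFractionRing A (A ⊗[P] FractionRing P) :=
    IsLocalization.of_le (Algebra.algebraMapSubmonoid A (nonZeroDivisors P)) _ h1 fun r hr => by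
      obtain ⟨y, hy⟩ := reg P A (FractionRing P) (algebraMap A _ r)
      have h0 : algebraMap A (A ⊗[P] FractionRing P) r ≠ 0 := fun h =>
        nonZeroDivisors.ne_zero hr (inj (h.trans (map_zero _).symm))
      exact IsUnit.of_mul_eq_one y (sub_eq_zero.1 ((mul_eq_zero.1 hy).resolve_left h0)).symm
  refine (isIntegrallyClosed_iff (A ⊗[P] FractionRing P)).2 fun {z} hz => ?_
  obtain ⟨t, ht⟩ := hB.2 ⟨z, hz⟩
  have h1 : z = (TensorProduct.toIntegralClosure P A (FractionRing P) t : _) :=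
    (congrArg Subtype.val ht).symm
  rw [h1]
  clear ht h1
  show _ ∈ (algebraMap A (A ⊗[P] FractionRing P)).range
  induction t using TensorProduct.induction_on with
  | zero => rw [map_zero]; exact zero_mem _
  | add x y hx hy => rw [map_add]; exact add_mem hx hy
  | tmul r c =>
    obtain ⟨a, ha⟩ := IsIntegrallyClosed.isIntegral_iff.1 c.2
    refine ⟨a • r, ?_⟩
    show (a • r) ⊗ₜ 1 = r ⊗ₜ (c : FractionRing P)
    rw [← ha, Algebra.algebraMap_eq_smul_one, TensorProduct.smul_tmul]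

variable {K : Type} [Field K] [Algebra ℂ K]

/-- `A` is the intersection of the valuation rings that contain it. -/
def Nm (A : Subalgebra ℂ K) : Prop :=
  ∀ h : K, (∀ V : ValuationSubring K, (∀ g ∈ A, g ∈ V) → h ∈ V) → h ∈ A

theorem nm_of_etale {n : ℕ} (A : Subalgebra ℂ K) (φ : MvPolynomial (Fin n) ℂ →+* A) (hφ : φ.Etale)
    (hK : ∀ x : K, ∃ s ∈ A, s ≠ 0 ∧ s * x ∈ A) : Nm A := by
  intro h hh
  let _ := φ.toAlgebra
  have : Algebra.Etale (MvPolynomial (Fin n) ℂ) A := hφ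
  have : IsIntegrallyClosed A := normal_of_etale (MvPolynomial (Fin n) ℂ) A
  have : IsFractionRing A K := by
    refine IsFractionRing.of_field A K fun x => ?_
    obtain ⟨s, h1, h2, h3⟩ := hK x
    exact ⟨⟨_, h3⟩, ⟨s, h1⟩, by
      show x = s * x / s
      rw [mul_div_cancel_left₀ _ h2]⟩
  obtain ⟨y, hy⟩ := IsIntegrallyClosed.isIntegral_iff.1 (H95G.POLA.int_of A hh)
  exact hy ▸ y.2

/-- The ring `A[1/t]`. -/
def aw (A : Subalgebra ℂ K) (t : K) : Subalgebra ℂ K := A ⊔ Algebra.adjoin ℂ {t⁻¹}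

variable {A : Subalgebra ℂ K} {t : K}

theorem le_aw : A ≤ aw A t := le_sup_left

theorem inv_mem_aw : t⁻¹ ∈ aw A t :=
  (le_sup_right : _ ≤ aw A t) (Algebra.subset_adjoin (Set.mem_singleton _))

theorem aw_le {B : Subalgebra ℂ K} (h : A ≤ B) (ht : t⁻¹ ∈ B) : aw A t ≤ B :=
  sup_le h (Algebra.adjoin_le (Set.singleton_subset_iff.2 ht))

theorem mem_aw (ht : t ∈ A) (h0 : t ≠ 0) {g : K} : g ∈ aw A t ↔ ∃ e : ℕ, t ^ e * g ∈ A := by
  constructor
  · let B : Subalgebra ℂ K :=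
      { carrier := {g | ∃ e : ℕ, t ^ e * g ∈ A}
        mul_mem' := by
          rintro a b ⟨e, he⟩ ⟨e', he'⟩
          exact ⟨e + e', by rw [pow_add, mul_mul_mul_comm]; exact mul_mem he he'⟩
        add_mem' := by
          rintro a b ⟨e, he⟩ ⟨e', he'⟩
          refine ⟨e + e', ?_⟩
          have : t ^ (e + e') * (a + b) = t ^ e' * (t ^ e * a) + t ^ e * (t ^ e' * b) := by ring
          rw [this]
          exact add_mem (mul_mem (pow_mem ht _) he) (mul_mem (pow_mem ht _) he')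
        algebraMap_mem' := fun c => ⟨0, by simp⟩ }
    intro hg
    exact aw_le (B := B) (fun g hg => ⟨0, by simpa using hg⟩)
      ⟨1, by rw [pow_one, mul_inv_cancel₀ h0]; exact one_mem _⟩ hg
  · rintro ⟨e, he⟩
    have := mul_mem (pow_mem (inv_mem_aw (A := A) (t := t)) e) (le_aw he)
    rwa [← mul_assoc, ← mul_pow, inv_mul_cancel₀ h0, one_pow, one_mul] at this

theorem aw_val (ht : t ∈ A) (h0 : t ≠ 0) (V : ValuationSubring K) :
    (∀ g ∈ aw A t, g ∈ V) ↔ (∀ g ∈ A, g ∈ V) ∧ t⁻¹ ∈ V := by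
  refine ⟨fun h => ⟨fun g hg => h g (le_aw hg), h _ inv_mem_aw⟩, fun h g hg => ?_⟩
  obtain ⟨e, he⟩ := (mem_aw ht h0).1 hg
  have := mul_mem (pow_mem h.2 e) (h.1 _ he)
  rwa [← mul_assoc, ← mul_pow, inv_mul_cancel₀ h0, one_pow, one_mul] at this

theorem et_incl (ht : t ∈ A) (h0 : t ≠ 0) :
    (Subalgebra.inclusion (le_aw (A := A) (t := t))).toRingHom.Etale := by
  let _ := (Subalgebra.inclusion (le_aw (A := A) (t := t))).toRingHom.toAlgebra
  have : IsLocalization.Away (⟨t, ht⟩ : A) (aw A t) := by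
    refine IsLocalization.Away.mk _ ?_ (fun s => ?_) fun a b h => ⟨0, ?_⟩
    · exact IsUnit.of_mul_eq_one ⟨t⁻¹, inv_mem_aw⟩ (Subtype.ext (mul_inv_cancel₀ h0))
    · obtain ⟨e, he⟩ := (mem_aw ht h0).1 s.2
      refine ⟨e, ⟨_, he⟩, Subtype.ext ?_⟩
      show (s : K) * (t ^ e : K) = t ^ e * s
      rw [mul_comm]
    · have : a = b := Subtype.ext (congrArg (fun x : aw A t => (x : K)) h)
      rw [this]
  exact Algebra.Etale.of_isLocalizationAway (⟨t, ht⟩ : A)

theorem et_aw {n : ℕ} (z : Fin n → K) (hz : ∀ i, z i ∈ A) (ht : t ∈ A) (h0 : t ≠ 0)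
    (h : (aeval fun i => (⟨z i, hz i⟩ : A) : MvPolynomial (Fin n) ℂ →ₐ[ℂ] A).toRingHom.Etale) :
    (aeval fun i => (⟨z i, le_aw (hz i)⟩ : aw A t) :
      MvPolynomial (Fin n) ℂ →ₐ[ℂ] aw A t).toRingHom.Etale := by
  have e : (aeval fun i => (⟨z i, le_aw (hz i)⟩ : aw A t) : MvPolynomial (Fin n) ℂ →ₐ[ℂ] aw A t) =
      (Subalgebra.inclusion le_aw).comp (aeval fun i => (⟨z i, hz i⟩ : A)) := by
    refine algHom_ext fun i => ?_
    simp only [AlgHom.comp_apply, aeval_X]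
    rfl
  rw [e]
  exact RingHom.Etale.stableUnderComposition _ _ h (et_incl ht h0)

end Normal

section Away

variable {K ι J κ : Type} {n : ℕ} [Field K] [Algebra ℂ K]

/-- The charts `b i` with `t i` inverted. -/
def away (S : Sys ℂ K ι J n) (b : κ → ι) (t : κ → K) (ht : ∀ i, t i ∈ S.A (b i))
    (h0 : ∀ i, t i ≠ 0) : Sys ℂ K κ J n where
  r := S.r
  R := S.R
  A i := aw (S.A (b i)) (t i)
  z i := S.z (b i)
  D i := S.D (b i)
  lab i := S.lab (b i)
  η i := S.η (b i)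
  R_r := S.R_r
  R_comm := S.R_comm
  D_z i := S.D_z (b i)
  D_R i := S.D_R (b i)
  z_mem i l := le_aw (S.z_mem (b i) l)
  D_mem i l g hg := by
    obtain ⟨e, he⟩ := (mem_aw (ht i) (h0 i)).1 hg
    refine (mem_aw (ht i) (h0 i)).2 ⟨e + 1, ?_⟩
    have h1 := S.D_mem (b i) l _ he
    have h2 := S.D_mem (b i) l _ (ht i)
    have : t i ^ (e + 1) * S.D (b i) l g = t i * S.D (b i) l (t i ^ e * g) -
        (e : K) * (t i ^ e * g) * S.D (b i) l (t i) := by
      rw [Derivation.leibniz, Derivation.leibniz_pow]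
      cases e with
      | zero => simp
      | succ e =>
        simp only [smul_eq_mul, nsmul_eq_mul, Nat.add_sub_cancel]
        ring
    rw [this]
    exact sub_mem (mul_mem (ht i) h1) (mul_mem (mul_mem (natCast_mem _ _) he) h2)
  lab_inj i := S.lab_inj (b i)
  η_some i := S.η_some (b i)
  η_none i := S.η_none (b i)
  η_mem i i' j := sup_le_sup le_aw le_aw (S.η_mem (b i) (b i') j)
  loc i i' g hg := by
    obtain ⟨e, he⟩ := (mem_aw (ht i') (h0 i')).1 hg
    obtain ⟨u, u1, u2, u3⟩ := S.loc (b i) (b i') _ he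
    obtain ⟨v, v1, v2, v3⟩ := S.loc (b i) (b i') _ (ht i')
    refine ⟨u * (v * Units.mk0 _ (h0 i')) ^ e, le_aw (mul_mem u1 (pow_mem v3 e)), ?_, le_aw ?_⟩
    · rw [mul_inv, ← inv_pow, mul_inv, Units.val_mul, Units.val_pow_eq_pow_val, Units.val_mul]
      refine mul_mem (sup_le_sup le_aw le_aw u2) (pow_mem (mul_mem (sup_le_sup le_aw le_aw v2)
        ((le_sup_right : aw _ _ ≤ _) ?_)) e)
      rw [Units.val_inv_eq_inv_val]
      exact inv_mem_aw
    · have := mul_mem u3 (pow_mem v1 e)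
      have e1 : ((u * (v * Units.mk0 _ (h0 i')) ^ e : Kˣ) : K) * g =
          (u : K) * (t i' ^ e * g) * (v : K) ^ e := by
        rw [Units.val_mul, Units.val_pow_eq_pow_val, Units.val_mul, Units.val_mk0]
        ring
      rwa [e1]

end Away

section Model

variable {N : ℕ}

theorem Un.mul {K : Type} [Field K] {V : ValuationSubring K} {g h : K} (hg : Un V g)
    (hh : Un V h) : Un V (g * h) :=
  ⟨mul_ne_zero hg.1 hh.1, mul_mem hg.2.1 hh.2.1, by rw [mul_inv]; exact mul_mem hg.2.2 hh.2.2⟩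

theorem frac (x : KK N) : ∃ p : Po N, ip N p ≠ 0 ∧ ∃ q : Po N, ip N p * x = ip N q := by
  obtain ⟨q, p, hp, rfl⟩ := IsFractionRing.div_surjective (A := Po N) x
  have h0 : ip N p ≠ 0 := IsFractionRing.to_map_ne_zero_of_mem_nonZeroDivisors hp
  exact ⟨p, h0, q, mul_div_cancel₀ _ h0⟩

theorem ov_of_X {V : Vl N} (hc : ∀ c : ℂ, algebraMap ℂ (KK N) c ∈ V)
    (hx : ∀ l, ip N (X l) ∈ V) : Ov V := by
  intro p
  induction p using MvPolynomial.induction_on with
  | C c =>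
    have : ip N (C c) = algebraMap ℂ (KK N) c := (ip N).commutes c
    exact this ▸ hc c
  | add p q hp hq => rw [map_add]; exact add_mem hp hq
  | mul_X p l hp => rw [map_mul]; exact mul_mem hp (hx l)

variable {M : Mod N} {f : Po N}

/-- The charts of a model are normal. -/
theorem nm_chart (h : M.OK f) (b : M.ι) : Nm (M.S.A b) :=
  nm_of_etale _ _ (h.et b) fun x => by
    obtain ⟨p, h0, q, e⟩ := frac x
    exact ⟨_, h.pol b p, h0, e ▸ h.pol b q⟩

theorem ov_of_in (h : M.OK f) {b : M.ι} {V : Vl N} (hV : M.In b V) : Ov V :=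
  fun p => hV _ (h.pol b p)

theorem f_ne (h : M.OK f) : ip N f ≠ 0 := by
  obtain ⟨b, -⟩ := h.cov ⊤ fun _ => trivial
  obtain ⟨U, -, e⟩ := h.ord b
  rw [e]
  exact mul_ne_zero U.ne_zero (Units.ne_zero _)

variable {w : M.J → ℤ} {κ : Type} {b : κ → M.ι} {t ρ : κ → KK N}

/-- The system of charts of an ample cover. -/
def LS (hA : M.AC w b t ρ) : Sys ℂ (KK N) κ M.J N := away M.S b t hA.mem hA.ne

theorem LS_A (hA : M.AC w b t ρ) (i : κ) : (LS hA).A i = aw (M.S.A (b i)) (t i) := rfl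

theorem LS_mon (hA : M.AC w b t ρ) (i : κ) (c : M.J → ℤ) : (LS hA).mon i c = M.S.mon (b i) c := rfl

theorem LS_et (h : M.OK f) (hA : M.AC w b t ρ) (i : κ) : ((LS hA).zh i).toRingHom.Etale :=
  et_aw _ (M.S.z_mem (b i)) (hA.mem i) (hA.ne i) (h.et (b i))

theorem LS_pol (h : M.OK f) (hA : M.AC w b t ρ) (i : κ) (p : Po N) : ip N p ∈ (LS hA).A i :=
  le_aw (h.pol (b i) p)

theorem LS_nm (h : M.OK f) (hA : M.AC w b t ρ) (i : κ) : Nm ((LS hA).A i) :=
  nm_of_etale _ _ (LS_et h hA i) fun x => by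
    obtain ⟨p, h0, q, e⟩ := frac x
    exact ⟨_, LS_pol h hA i p, h0, e ▸ LS_pol h hA i q⟩

/-- The valuation rings over the chart `i` are those along which `ρ i` generates. -/
theorem LS_val (h : M.OK f) (hA : M.AC w b t ρ) (i : κ) (V : Vl N) :
    (∀ g ∈ (LS hA).A i, g ∈ V) ↔ Ov V ∧ M.Gen V w (ρ i) := by
  rw [LS_A, aw_val (hA.mem i) (hA.ne i)]
  exact ⟨fun H => ⟨ov_of_in h H.1, (hA.gen i V (ov_of_in h H.1)).2 H⟩,
    fun H => (hA.gen i V H.1).1 H.2⟩

theorem LS_in (hA : M.AC w b t ρ) {i : κ} {V : Vl N} (hV : ∀ g ∈ (LS hA).A i, g ∈ V) :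
    M.In (b i) V := fun g hg => hV g (le_aw hg)

theorem rho_ne (hA : M.AC w b t ρ) (i : κ) : ρ i ≠ 0 :=
  left_ne_zero_of_mul (((hA.gen i ⊤ fun _ => trivial).2 ⟨fun _ _ => trivial, trivial⟩) (b i)
    fun _ _ => trivial).1

theorem nonempty (hA : M.AC w b t ρ) : Nonempty κ :=
  ⟨(hA.cov ⊤ fun _ => trivial).choose⟩

/-- The sections of the cover as units. -/
def ru (hA : M.AC w b t ρ) (i : κ) : (KK N)ˣ := Units.mk0 (ρ i) (rho_ne hA i)

theorem ru_div (hA : M.AC w b t ρ) (i j : κ) : ((ru hA i / ru hA j : (KK N)ˣ) : KK N) = ρ i / ρ j :=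
  Units.val_div_eq_div_val _ _

theorem div_mem_of_gen {V : Vl N} {c : M.J → ℤ} {g g' : KK N} {a : M.ι} (ha : M.In a V)
    (hg : M.Oc V c g) (hg' : M.Gen V c g') : g / g' ∈ V := by
  have := mul_mem (hg a ha) (hg' a ha).2.2
  rwa [← div_eq_mul_inv, mul_div_mul_right _ _ (Units.ne_zero _)] at this

theorem gen_of_un {V : Vl N} {c : M.J → ℤ} {g g' : KK N} (hg' : M.Gen V c g')
    (h0 : g' ≠ 0) (hu : Un V (g / g')) : M.Gen V c g := fun a ha => by
  have := Un.mul hu (hg' a ha)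
  rwa [← mul_assoc, div_mul_cancel₀ _ h0] at this

theorem LS_Pol (h : M.OK f) (hA : M.AC w b t ρ) {m : ℕ} (x : Fin m → KK N)
    (hx : ∀ l, ∃ p, x l = ip N p) (hX : ∀ l, ∃ l', x l' = ip N (X l)) :
    (LS hA).Pol x w (ru hA) := by
  have mem : ∀ i j, ρ i / ρ j ∈ (LS hA).A j := fun i j => LS_nm h hA j _ fun V hV =>
    div_mem_of_gen (LS_in hA hV) (hA.sec i V ((LS_val h hA j V).1 hV).1) ((LS_val h hA j V).1 hV).2
  refine ⟨fun i l => ?_, fun i j => by rw [ru_div]; exact mem i j, fun i j g hg => ?_,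
    fun i => ?_, fun i g hg => H95G.POLA.int_of _ fun V hV => ?_⟩
  · obtain ⟨p, hp⟩ := hx l
    exact hp ▸ LS_pol h hA i p
  · have h0 : ρ i / ρ j ≠ 0 := div_ne_zero (rho_ne hA i) (rho_ne hA j)
    have hn : Nm (aw ((LS hA).A j) (ρ i / ρ j)) :=
      nm_of_etale _ _ (et_aw _ ((LS hA).z_mem j) (mem i j) h0 (LS_et h hA j)) fun x => by
        obtain ⟨p, h0, q, e⟩ := frac x
        exact ⟨_, le_aw (LS_pol h hA j p), h0, e ▸ le_aw (LS_pol h hA j q)⟩
    simp only [Units.val_pow_eq_pow_val, ru_div]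
    refine (mem_aw (mem i j) h0).1 (hn g fun V hV => ?_)
    obtain ⟨h1, h2⟩ := (aw_val (mem i j) h0 V).1 hV
    obtain ⟨h3, h4⟩ := (LS_val h hA j V).1 h1
    exact (LS_val h hA i V).2 ⟨h3, gen_of_un h4 (rho_ne hA j) ⟨h0, h1 _ (mem i j), h2⟩⟩ g hg
  · have u : ∀ V : Vl N, (∀ g ∈ (LS hA).A i, g ∈ V) → Un V (ρ i * M.mon (b i) w) := fun V hV =>
      ((LS_val h hA i V).1 hV).2 _ (LS_in hA hV)
    rw [Sys.IsU, Units.val_inv_eq_inv_val]
    exact ⟨LS_nm h hA i _ fun V hV => (u V hV).2.1, LS_nm h hA i _ fun V hV => (u V hV).2.2⟩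
  · have hO : Ov V := ov_of_X (fun c => hV _ (Subalgebra.algebraMap_mem _ c)) fun l => by
      obtain ⟨l', e⟩ := hX l
      exact e ▸ hV _ (Algebra.subset_adjoin (Or.inl ⟨l', rfl⟩))
    obtain ⟨j, hj⟩ := hA.cov V hO
    obtain ⟨a, ha⟩ := h.cov V hO
    have h1 : ρ j / ρ i ∈ V := by
      rw [← ru_div hA]
      exact hV _ (Algebra.subset_adjoin (Or.inr ⟨j, rfl⟩))
    refine (LS_val h hA i V).2 ⟨hO, gen_of_un hj (rho_ne hA j) ⟨div_ne_zero (rho_ne hA i)
      (rho_ne hA j), div_mem_of_gen ha (hA.sec i V hO) hj, by rwa [inv_div]⟩⟩ g hg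

/-- The coordinates followed by the constant function `1`. -/
def xs (F : Fin 1 → Po N) : Fin (N + 1) → KK N :=
  Fin.append (fun l => ip N (X l)) fun j =>
    aeval (fun l => ip N (X l)) (F j) / aeval (fun l => ip N (X l)) (F 0)

theorem aeval_ip (p : Po N) : aeval (fun l => ip N (X l)) p = ip N p := by
  have : (aeval fun l => ip N (X l) : Po N →ₐ[ℂ] KK N) = ip N := algHom_ext fun l => aeval_X _ l
  rw [this]

theorem xs_left (F : Fin 1 → Po N) (l : Fin N) : xs F (Fin.castAdd 1 l) = ip N (X l) :=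
  Fin.append_left _ _ l

theorem xs_right (F : Fin 1 → Po N) (h0 : ip N (F 0) ≠ 0) (j : Fin 1) :
    xs F (Fin.natAdd N j) = 1 := by
  rw [xs, Fin.append_right, Subsingleton.elim j 0, aeval_ip, div_self h0]

theorem LS_Pol_xs {F : Fin 1 → Po N} (h : M.OK (F 0)) (hA : M.AC w b t ρ) :
    (LS hA).Pol (xs F) w (ru hA) :=
  LS_Pol h hA _ (fun l => Fin.addCases (fun l => ⟨_, xs_left F l⟩)
    (fun j => ⟨1, by rw [xs_right F (f_ne h), map_one]⟩) l) fun l => ⟨_, xs_left F l⟩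

theorem mon_neg (a : M.ι) (c : M.J → ℤ) : M.S.mon a (fun j => -c j) = (M.S.mon a c)⁻¹ := by
  simp only [Sys.mon, zpow_neg, Finset.prod_inv_distrib]

theorem LS_mainK {F : Fin 1 → Po N} {β : Polynomial ℂ} (h : M.OK (F 0)) (hA : M.AC w b t ρ)
    (hb : H10.IsBS F β) :
    H95G.MainK (LS hA) (xs F) (Units.mk0 _ (f_ne h)) M.a M.k β := by
  have hr : (LS hA).r = fun l => ip N (X l) := h.r
  refine ⟨LS_et h hA, fun c l => hr ▸ LS_pol h hA c _, fun c => ?_, fun c => ?_, ?_⟩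
  · obtain ⟨U, hU, e⟩ := h.ord (b c)
    have : Units.mk0 _ (f_ne h) * (LS hA).mon c (fun j => -(M.a j : ℤ)) = U := by
      rw [LS_mon, mon_neg, mul_inv_eq_iff_eq_mul]
      exact Units.ext e
    rw [this]
    exact ⟨le_aw hU.1, le_aw hU.2⟩
  · obtain ⟨U, hU, e⟩ := h.det (b c)
    exact ⟨U, ⟨le_aw hU.1, le_aw hU.2⟩, e⟩
  · have hne : aeval (fun l => ip N (X l)) (F 0) ≠ 0 := by rw [aeval_ip]; exact f_ne h
    obtain ⟨u, β', Q, h1, h2, h3⟩ := H95G.rowBS (H95G.rowBS2 H95G.rowPHI) (KK N) N 1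
      (fun l => ip N (X l)) F β 0 (LS hA).R (⨅ c, (LS hA).A c) hb
      (fun i j => (congrFun hr j) ▸ (LS hA).R_r i j) hne (fun l => Algebra.mem_iInf.2 fun c => LS_pol h hA c _)
      fun j => by rw [Subsingleton.elim j 0, div_self hne]; exact one_mem _
    refine ⟨u, β', Q, fun c l e => ?_, fun c e => Algebra.mem_iInf.1 (h2 e) c, ?_⟩
    · have := Algebra.mem_iInf.1 (h1 l e) c
      rwa [aeval_ip] at this
    · rw [h3]
      simp only [Sys.th, xs, aeval_ip, Units.val_mk0, Units.val_inv_eq_inv_val]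

/-- A divisor on which an ample divisor below the log canonical divisor attains the bound gives
a root. -/
theorem root_of_amp {F : Fin 1 → Po N} {β : Polynomial ℂ} (h : M.OK (F 0)) (hb : H10.IsBS F β)
    {μ : ℕ} (hμ : 0 < μ) (hw : M.Amp w) (hle : ∀ j, w j ≤ μ * (M.k j + 1)) {o : M.J}
    (ho : w o = μ * (M.k o + 1)) {la : ℂ} (hla : (M.k o + 1 : ℂ) = la * M.a o) :
    β.eval (-la) = 0 := by
  obtain ⟨κ, _, b, t, ρ, hA⟩ := hw
  have := nonempty hA
  obtain ⟨a, ha⟩ := h.ne o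
  obtain ⟨h1, h2, -⟩ := h.dv a o ha
  obtain ⟨i, hi⟩ := hA.cov _ (ov_of_in h h1)
  have hV := (LS_val h hA i _).2 ⟨ov_of_in h h1, hi⟩
  have hd := H95G.rowRES H59.smain (KK N) κ M.J N (N + 1) (LS hA) (xs F) _ M.a M.k β w (ru hA) μ {o}
    la i (LS_mainK h hA hb) (LS_Pol_xs h hA) hμ hle (fun j hj => absurd hj (h.pos j).ne')
    (fun j hj => Finset.mem_singleton.1 hj ▸ ho) (fun j hj => Finset.mem_singleton.1 hj ▸ hla) ?_
  · rw [Finset.card_singleton, pow_one, ← sub_neg_eq_add, ← Polynomial.C_neg,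
      Polynomial.dvd_iff_isRoot] at hd
    exact hd
  · rintro ⟨g, g1, g2⟩
    rw [Finset.sum_singleton] at g2
    have e1 : (M.η (b i) o)⁻¹ = g o := (eq_inv_of_mul_eq_one_right g2.symm).symm
    have e2 : ((M.S.η (b i) o / M.S.η a o : (KK N)ˣ) : KK N) ∈ (M.v o).O :=
      (sup_le (a := M.S.A (b i)) (b := M.S.A a) (c := ⟨(M.v o).O.toSubring.toSubsemiring,
        fun c => h1 _ (Subalgebra.algebraMap_mem _ c)⟩) (LS_in hA hV) h1) (M.S.η_mem _ _ _)
    have e3 := mul_mem e2 (e1 ▸ hV _ (g1 o))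
    rw [Units.val_div_eq_div_val, div_mul_eq_mul_div, mul_inv_cancel₀ (Units.ne_zero _),
      one_div] at e3
    rcases e3 with e3 | e3
    · exact inv_ne_zero (Units.ne_zero _) e3
    · rw [DV.inv, h2] at e3
      omega

end Model

end

end Pool.Agent.MP_ee8c61_ag.M3L
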