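import Pool.Agent.MP_ee8c61_ag.M3L.Zm
import Pool.Agent.MP_ee8c61_ag.M3.Defs
import Pool.Agent.MP_ee8c61_ag.H95.All
import Pool.Agent.MP_96693b_ag.DR.RAff

/-! The strata of a model; the zeta function can be computed on every model. -/

set_option autoImplicit false

namespace Pool.Agent.MP_ee8c61_ag.M3L

open M3 MvPolynomial H95 Set
open Pool.Agent.MP_96693b_ag.RS (Loc LocOf exists_locOf)
open Pool.Agent.MP_4f1c5b_al.H95 (ConE)

noncomputable section

variable {N : ℕ} {M : Mod N} {f : Po N}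

theorem eta_mem (b : M.ι) (j : M.J) : M.η b j ∈ M.S.A b := by
  cases e : M.S.lab b j with
  | none => simp [Mod.η, M.S.η_none b j e]
  | some l => exact (M.S.η_some b j l e).symm.subst (motive := (· ∈ M.S.A b)) (M.S.z_mem b l)

/-- The equation of a divisor as an element of the chart. -/
def et (b : M.ι) (j : M.J) : M.S.A b := ⟨M.η b j, eta_mem b j⟩

theorem mon_nat (b : M.ι) (c : M.J → ℕ) :
    M.mon b (fun j => c j) = ((∏ j, et b j ^ c j : M.S.A b) : KK N) := by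
  simp [Mod.mon_eq, et]

theorem on_iff (h : M.OK f) {b : M.ι} {P : Loc (KK N)} (hP : LocOf (M.S.A b) P) (j : M.J) :
    M.On P j ↔ P.ev (M.η b j) = 0 := by
  constructor
  · intro H
    obtain ⟨a, ha⟩ := h.ne j
    obtain ⟨h1, h2, -⟩ := h.dv a j ha
    by_contra hn
    have h3 : (M.S.η a j / M.S.η b j : (KK N)ˣ).1 ∈ (M.v j).O :=
      sup_mem h1 (fun g hg => H g (hP.le hg)) (M.S.η_mem a b j)
    have h4 : (M.S.η b j / M.S.η a j : (KK N)ˣ).1 ∈ (M.v j).O :=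
      sup_mem (fun g hg => H g (hP.le hg)) h1 (M.S.η_mem b a j)
    have h5 := (H _ (P.inv_mem _ (hP.le (eta_mem b j)) hn)).resolve_left
      (inv_ne_zero (M.η_ne b j))
    have h6 := h4.resolve_left (Units.ne_zero _)
    rw [Units.val_div_eq_div_val, (M.v j).div (M.η_ne b j) (M.η_ne a j), h2] at h6
    rw [(M.v j).inv] at h5
    omega
  · intro H g hg
    obtain ⟨h1, -, h3⟩ := h.dv b j fun hn => by
      have := P.ev_mul _ (hP.le (eta_mem b j)) _ (hP.le hn)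
      rw [mul_inv_cancel₀ (M.η_ne b j), Loc.ev_one, H, zero_mul] at this
      exact one_ne_zero this
    obtain ⟨p, hp, q, hq, h0, e⟩ := hP.frac g hg
    have hq0 := Loc.ne_zero_of_ev h0
    have h4 : q ∉ (M.v j).F 1 := fun hn => h0 (by
      have := P.ev_mul _ (hP.le (h3 q hq hn)) _ (hP.le (eta_mem b j))
      rwa [inv_mul_cancel_right₀ (M.η_ne b j), H, mul_zero] at this)
    have h5 : q⁻¹ ∈ (M.v j).O := Or.inr (by
      have := not_or.1 h4
      rw [(M.v j).inv]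
      omega)
    rw [(eq_mul_inv_iff_mul_eq₀ hq0).2 e]
    exact (M.v j).O.mul_mem _ _ (h1 p hp) h5

theorem locOf_of_le {a b : M.ι} {P : Loc (KK N)} (hP : LocOf (M.S.A b) P) (h : M.S.A a ≤ P.O) :
    LocOf (M.S.A a) P := by
  refine ⟨h, fun g hg => ?_⟩
  obtain ⟨p, hp, q, hq, h0, e⟩ := hP.frac g hg
  obtain ⟨u, u1, u2, u3⟩ := M.S.loc a b p hp
  obtain ⟨v, v1, v2, v3⟩ := M.S.loc a b q hq
  have k : ∀ w : (KK N)ˣ, (w : KK N) ∈ M.S.A a → (w⁻¹ : (KK N)ˣ).1 ∈ M.S.A a ⊔ M.S.A b →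
      P.ev w ≠ 0 := fun w w1 w2 => by
    have := P.ev_mul _ (h w1) _ (sup_le h hP.le w2)
    rw [Units.mul_inv, Loc.ev_one] at this
    exact left_ne_zero_of_mul_eq_one this.symm
  refine ⟨_, mul_mem u3 v1, _, mul_mem u1 v3, ?_, by rw [← e]; ring⟩
  rw [P.ev_mul _ (h u1) _ (h v3), P.ev_mul _ (h v1) _ (hP.le hq)]
  exact mul_ne_zero (k u u1 u2) (mul_ne_zero (k v v1 v2) h0)

/-- Generators of a chart. -/
structure Gn (M : Mod N) (b : M.ι) where
  n : ℕ
  y : Fin n → M.S.A b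
  zc : Fin N → Fin n
  fc : Fin N → Fin n
  gen : Function.Surjective (ev y)
  hz : ∀ l, (y (zc l) : KK N) = M.S.z b l
  hf : ∀ l, (y (fc l) : KK N) = ip N (X l)

theorem exists_gn (h : M.OK f) (b : M.ι) : Nonempty (Gn M b) := by
  have : Algebra.FiniteType ℂ (M.S.A b) := by
    let _ := (M.S.zh b).toRingHom.toAlgebra
    have : Algebra.Etale (Po N) (M.S.A b) := h.et b
    have : IsScalarTower ℂ (Po N) (M.S.A b) :=
      IsScalarTower.of_algebraMap_eq fun c => ((M.S.zh b).commutes c).symm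
    exact Algebra.FiniteType.trans (S := Po N) inferInstance inferInstance
  obtain ⟨n, φ, hφ⟩ := Algebra.FiniteType.iff_quotient_mvPolynomial''.1 this
  refine ⟨⟨n + (N + N), Fin.append (fun i => φ (X i)) (Fin.append
    (fun l => ⟨_, M.S.z_mem b l⟩) fun l => ⟨_, h.pol b (X l)⟩),
    fun l => Fin.natAdd n (Fin.castAdd N l), fun l => Fin.natAdd n (Fin.natAdd N l), fun a => ?_,
    fun l => by simp, fun l => by rw [Fin.append_right, Fin.append_right]⟩⟩
  obtain ⟨p, rfl⟩ := hφ a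
  refine ⟨rename (Fin.castAdd _) p, ?_⟩
  rw [aeval_rename]
  exact DFunLike.congr_fun (algHom_ext (f := aeval _) (g := φ) fun i => by simp) p

namespace Gn

variable {b : M.ι} (G : Gn M b) (h : M.OK f)

/-- The chart. -/
def ch : Chart N where
  A := M.S.A b
  κ := Fin G.n
  y := G.y
  gen := G.gen
  zc := G.zc
  fc := G.fc
  et := by
    have : ev (G.y ∘ G.zc) = M.S.zh b :=
      congrArg aeval (funext fun l => Subtype.ext (G.hz l))
    rw [this]
    exact (h.et b).toAlgebra.formallyEtale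
  D l := Derivation.mk'
    { toFun := fun a => ⟨M.S.D b l a, M.S.D_mem b l a a.2⟩
      map_add' := fun x y => Subtype.ext (map_add (M.S.D b l) x.1 y.1)
      map_smul' := fun c x => Subtype.ext ((M.S.D b l).map_smul c x.1) }
    fun x y => Subtype.ext ((M.S.D b l).leibniz x.1 y.1)
  dual l m := Subtype.ext (by
    change M.S.D b l (G.y (G.zc m)) = _
    rw [G.hz, M.S.D_z]
    split_ifs <;> rfl)

theorem val_f (p : Po N) : (M.S.A b).val (ev (G.ch h).f p) = ip N p :=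
  DFunLike.congr_fun (algHom_ext (f := (M.S.A b).val.comp (ev (G.ch h).f)) (g := ip N)
    fun i => (congrArg Subtype.val (aeval_X (G.ch h).f i)).trans (G.hf i)) p

theorem det_eq : ∃ v : M.S.A b, IsUnit v ∧ (G.ch h).Jm.det = (∏ j, et b j ^ M.k j) * v := by
  obtain ⟨U, hU, e⟩ := h.det b
  refine ⟨⟨U, hU.1⟩, IsUnit.of_mul_eq_one ⟨_, hU.2⟩ (Subtype.ext U.mul_inv), Subtype.ext ?_⟩
  rw [MulMemClass.coe_mul, ← mon_nat, mul_comm]
  refine .trans ?_ e
  refine ((M.S.A b).val.map_det _).trans (congrArg Matrix.det (Matrix.ext fun i l => ?_))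
  change M.S.D b l (G.y (G.fc i)) = M.S.D b l (M.S.r i)
  rw [G.hf, h.r]

/-- The generators as rational functions. -/
def yk : Fin G.n → KK N := fun k => G.y k

theorem adj : Algebra.adjoin ℂ (range G.yk) = M.S.A b := by
  rw [Algebra.adjoin_range_eq_range_aeval]
  have : aeval G.yk = (M.S.A b).val.comp (ev G.y) := algHom_ext fun i => by simp [yk]
  rw [this, AlgHom.range_comp, (AlgHom.range_eq_top _).2 G.gen, Algebra.map_top,
    Subalgebra.range_val]

theorem mem_af {P : Loc (KK N)} : P ∈ Af G.yk ↔ LocOf (M.S.A b) P := by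
  rw [Af, G.adj]
  rfl

theorem reg {W : Set (Loc (KK N))} (hW : W ⊆ Af G.yk) : RegOn G.yk W :=
  fun _ hP k => (G.mem_af.1 (hW hP)).le (G.y k).2

end Gn

/-- Evaluation at a point. -/
def evh {A : Subalgebra ℂ (KK N)} {P : Loc (KK N)} (h : LocOf A P) : A →ₐ[ℂ] ℂ where
  toFun g := P.ev g
  map_one' := Loc.ev_one
  map_mul' g g' := P.ev_mul _ (h.le g.2) _ (h.le g'.2)
  map_zero' := Loc.ev_zero
  map_add' g g' := P.ev_add _ (h.le g.2) _ (h.le g'.2)
  commutes' r := P.ev_alg r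

namespace Gn

variable {b : M.ι} (G : Gn M b) (h : M.OK f)

include h in
theorem mem_vl {W : Set (Loc (KK N))} (hW : W ⊆ Af G.yk) (φ : M.S.A b →ₐ[ℂ] ℂ) :
    φ ∘ G.y ∈ vl G.yk '' W ↔ ∃ P ∈ W, ∀ g : M.S.A b, P.ev g = φ g :=
  ⟨fun ⟨P, h1, h2⟩ => ⟨P, h1, DFunLike.congr_fun
    ((G.ch h).hom_ext (γ := evh (G.mem_af.1 (hW h1))) (γ' := φ) h2)⟩,
    fun ⟨P, h1, h2⟩ => ⟨P, h1, funext fun _ => h2 _⟩⟩

include h in
theorem inj : InjOn (vl G.yk) (Af G.yk) := fun P hP P' hP' e => by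
  have k := DFunLike.congr_fun
    ((G.ch h).hom_ext (γ := evh (G.mem_af.1 hP)) (γ' := evh (G.mem_af.1 hP')) e)
  exact Loc.ext' (le_antisymm
    ((G.mem_af.1 hP).le_of_ev (G.mem_af.1 hP').le fun g hg => (k ⟨g, hg⟩).symm)
    ((G.mem_af.1 hP').le_of_ev (G.mem_af.1 hP).le fun g hg => k ⟨g, hg⟩))

end Gn

open Classical in
/-- The coordinates that define the divisors in `I`. -/
def lb (b : M.ι) (I : Finset M.J) : Finset (Fin N) :=
  Finset.univ.filter fun l => ∃ j ∈ I, M.S.lab b j = some l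

open Classical in
/-- Multiplicities, indexed by the coordinates. -/
def ix (b : M.ι) (c : M.J → ℕ) (l : Fin N) : ℕ := ∑ j with M.S.lab b j = some l, c j

theorem ix_eq {b : M.ι} (c : M.J → ℕ) {j : M.J} {l : Fin N} (e : M.S.lab b j = some l) :
    ix b c l = c j := by
  rw [ix, Finset.sum_filter, Finset.sum_eq_single j (fun i _ hi =>
    if_neg fun e' => hi (M.S.lab_inj b i j l e' e)) (by simp), if_pos e]

theorem prod_ix {B : Type} [CommMonoid B] (b : M.ι) (I : Finset M.J) (F : Fin N → ℕ → ℕ → B)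
    (F' : M.J → B) (c d : M.J → ℕ) (h0 : ∀ j ∈ I, M.S.lab b j = none → F' j = 1)
    (h1 : ∀ j l, M.S.lab b j = some l → F' j = F l (c j) (d j)) :
    ∏ l ∈ lb b I, F l (ix b c l) (ix b d l) = ∏ j ∈ I, F' j := by
  classical
  rw [← Finset.prod_filter_of_ne (s := I) (f := F') (p := fun j => (M.S.lab b j).isSome)
    fun j hj hn => Option.isSome_iff_ne_none.2 fun e => hn (h0 j hj e)]
  refine (Finset.prod_bij (fun j hj => (M.S.lab b j).get (Finset.mem_filter.1 hj).2)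
    (fun j hj => ?_) (fun j hj j' hj' e => ?_) (fun l hl => ?_) fun j hj => ?_).symm
  · exact Finset.mem_filter.2 ⟨Finset.mem_univ _, j, (Finset.mem_filter.1 hj).1,
      (Option.some_get _).symm⟩
  · exact M.S.lab_inj b j j' _ (Option.some_get _).symm
      ((Option.some_get _).symm.trans (congrArg some e.symm))
  · obtain ⟨j, hj, e⟩ := (Finset.mem_filter.1 hl).2
    exact ⟨j, Finset.mem_filter.2 ⟨hj, by simp [e]⟩, by simp [e]⟩
  · have e := (Option.some_get (Finset.mem_filter.1 hj).2).symm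
    rw [ix_eq c e, ix_eq d e, h1 j _ e]

variable {J' : Type} {g : J' → Po N} {m : M.J → ℕ}

/-- The polynomials `g` generate the monomial ideal with exponents `m`. -/
def Mo (M : Mod N) (g : J' → Po N) (m : M.J → ℕ) : Prop :=
  (∀ j, 0 < m j) ∧ ∀ b, ∃ u : J' → M.S.A b, (∀ j, ip N (g j) = M.mon b (fun i => m i) * u j) ∧
    ∀ φ : M.S.A b →ₐ[ℂ] ℂ, ∃ j, φ (u j) ≠ 0

/-- Generators and cofactors. -/
structure Cf (h : M.OK f) (g : J' → Po N) (m : M.J → ℕ) (b : M.ι) extends Gn M b where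
  u : J' → M.S.A b
  fac : ∀ j, ev (toGn.ch h).f (g j) = (∏ i, et b i ^ m i) * u j
  unit : ∀ φ : M.S.A b →ₐ[ℂ] ℂ, ∃ j, φ (u j) ≠ 0
  v : M.S.A b
  jac : (toGn.ch h).Jm.det = (∏ i, et b i ^ M.k i) * v
  unitv : IsUnit v

theorem exists_cf (h : M.OK f) (hm : Mo M g m) (b : M.ι) : Nonempty (Cf h g m b) := by
  obtain ⟨G⟩ := exists_gn h b
  obtain ⟨u, h1, h2⟩ := hm.2 b
  obtain ⟨v, h3, h4⟩ := G.det_eq h
  exact ⟨⟨G, u, fun j => Subtype.ext ((G.val_f h _).trans ((h1 j).trans (by rw [mon_nat]; rfl))),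
    h2, v, h4, h3⟩⟩

namespace Cf

variable {h : M.OK f} {b : M.ι} (G : Cf h g m b)

theorem et_eq {j : M.J} {l : Fin N} (e : M.S.lab b j = some l) : et b j = G.y (G.zc l) :=
  Subtype.ext ((M.S.η_some b j l e).trans (G.hz l).symm)

theorem split (I : Finset M.J) (c : M.J → ℕ) (u : M.S.A b) : (∏ i, et b i ^ c i) * u =
    (∏ l ∈ lb b I, G.y (G.zc l) ^ ix b c l) * ((∏ i ∈ Iᶜ, et b i ^ c i) * u) := by
  rw [prod_ix (B := M.S.A b) b I (fun l n _ => G.y (G.zc l) ^ n) (fun j => et b j ^ c j) c c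
    (fun j _ e => by
      rw [show et b j = 1 from Subtype.ext (by simp [et, Mod.η, M.S.η_none b j e]), one_pow])
    (fun j l e => by rw [G.et_eq e]), ← mul_assoc, Finset.prod_mul_prod_compl]

theorem ne_zero {I : Finset M.J} {W : Set (Loc (KK N))} (hW : W ⊆ Af G.yk ∩ M.str I)
    (φ : M.S.A b →ₐ[ℂ] ℂ) (hφ : φ ∘ G.y ∈ vl G.yk '' W) (c : M.J → ℕ) {u : M.S.A b}
    (hu : φ u ≠ 0) : φ ((∏ i ∈ Iᶜ, et b i ^ c i) * u) ≠ 0 := by
  obtain ⟨P, h1, h2⟩ := (G.mem_vl h (hW.trans inter_subset_left) φ).1 hφ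
  rw [map_mul, map_prod]
  refine mul_ne_zero (Finset.prod_ne_zero_iff.2 fun i hi => ?_) hu
  rw [map_pow]
  exact pow_ne_zero _ fun e => Finset.mem_compl.1 hi (((hW h1).2.2 i).1
    ((on_iff h (G.mem_af.1 (hW h1).1) i).2 ((h2 (et b i)).trans e)))

/-- The stratum. -/
def str (hm : ∀ j, 0 < m j) (I : Finset M.J) (W : Set (Loc (KK N))) (hW : W ⊆ Af G.yk ∩ M.str I)
    (hc : H36.Con (vl G.yk '' W)) : Str N g where
  toChart := G.ch h
  P := vl G.yk '' W
  con := conE_iff.2 hc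
  pts := fun _ ⟨_, h1, h2⟩ => ⟨evh (G.mem_af.1 (hW h1).1), h2⟩
  S := lb b I
  a := ix b m
  k := ix b M.k
  u := fun j => ((∏ i ∈ Iᶜ, et b i ^ m i) * G.u j : M.S.A b)
  v := ((∏ i ∈ Iᶜ, et b i ^ M.k i) * G.v : M.S.A b)
  van := fun φ hφ l hl => by
    obtain ⟨P, h1, h2⟩ := (G.mem_vl h (hW.trans inter_subset_left) φ).1 hφ
    obtain ⟨j, hj, e⟩ := (Finset.mem_filter.1 hl).2
    exact (congrArg φ (G.et_eq e)).symm.trans <| (h2 (et b j)).symm.trans
      ((on_iff h (G.mem_af.1 (hW h1).1) j).1 (((hW h1).2.2 j).2 hj))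
  fac := fun j => (G.fac j).trans (G.split I m _)
  unit := fun φ hφ => (G.unit φ).imp fun _ hj => G.ne_zero hW φ hφ m hj
  jac := G.jac.trans (G.split I M.k _)
  unitv := fun φ hφ => G.ne_zero hW φ hφ M.k (G.unitv.map φ).ne_zero
  esc := fun l hl h0 => by
    obtain ⟨j, -, e⟩ := (Finset.mem_filter.1 hl).2
    exact absurd ((ix_eq m e).symm.trans h0) (hm j).ne'

theorem dvd (hm : ∀ j, 0 < m j) (j : J') :
    (G.ch h).Jm.det ∣ ev (G.ch h).f (g j) ^ ∑ i, M.k i := by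
  suffices (∏ i, et b i ^ M.k i) * G.v ∣ ((∏ i, et b i ^ m i) * G.u j) ^ ∑ i, M.k i by
    rw [G.jac, G.fac]
    exact this
  rw [G.unitv.mul_right_dvd, mul_pow, ← Finset.prod_pow]
  refine Dvd.dvd.mul_right (Finset.prod_dvd_prod_of_dvd _ _ fun i _ => ?_) _
  rw [← pow_mul]
  exact pow_dvd_pow _ ((Finset.single_le_sum (fun _ _ => Nat.zero_le _) (Finset.mem_univ i)).trans
    (Nat.le_mul_of_pos_left _ (hm i)))

end Cf

theorem det_ne {s : Str N g} {γ : s.A →ₐ[ℂ] PS} (h : s.Fin' γ) : γ s.Jm.det ≠ 0 := by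
  rw [s.jac, map_mul, map_prod]
  refine mul_ne_zero (Finset.prod_ne_zero_iff.2 fun l hl => ?_) fun e => ?_
  · rw [map_pow]
    exact pow_ne_zero _ (h.2 l hl)
  · exact s.unitv (s.pt γ) h.1 (by rw [Chart.pt_apply, e, map_zero])

theorem le_of_lift {β : Po N →ₐ[ℂ] PS} {b b' : M.ι} {γ : M.S.A b →ₐ[ℂ] PS}
    {γ' : M.S.A b' →ₐ[ℂ] PS} (h : ∀ a : M.S.A b, ((a : KK N), γ a) ∈ gr β)
    (h' : ∀ a : M.S.A b', ((a : KK N), γ' a) ∈ gr β) {P P' : Loc (KK N)} (hP : LocOf (M.S.A b) P)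
    (hP' : LocOf (M.S.A b') P') (e : ∀ a : M.S.A b, P.ev a = PowerSeries.constantCoeff (γ a))
    (e' : ∀ a : M.S.A b', P'.ev a = PowerSeries.constantCoeff (γ' a)) : P'.O ≤ P.O := by
  have k : ∀ x ∈ M.S.A b', x ∈ P.O ∧ P.ev x = P'.ev x := fun x hx => by
    obtain ⟨u, u1, u2, u3⟩ := M.S.loc b b' x hx
    obtain ⟨y, hy⟩ := mem_dm.1 ((sup_le (fun a ha => mem_dm.2 ⟨_, h ⟨a, ha⟩⟩)
      (fun a ha => mem_dm.2 ⟨_, h' ⟨a, ha⟩⟩) : _ ≤ dm β) u2)
    have h1 : γ ⟨u, u1⟩ * y = 1 :=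
      gr_fun (by simpa using mul_mem (h ⟨u, u1⟩) hy) (one_mem (gr β))
    have h2 : P.ev u ≠ 0 := by
      rw [e ⟨u, u1⟩]
      exact left_ne_zero_of_mul_eq_one (by rw [← map_mul, h1, map_one])
    have h3 : x ∈ P.O := by
      simpa using Loc.div_mem (hP.le u3) (hP.le u1) h2
    refine ⟨h3, mul_left_cancel₀ h2 ?_⟩
    rw [← P.ev_mul _ (hP.le u1) _ h3, e ⟨_, u3⟩, e ⟨u, u1⟩, e' ⟨x, hx⟩, ← map_mul,
      gr_fun (h ⟨_, u3⟩) (mul_mem (h ⟨u, u1⟩) (h' ⟨x, hx⟩))]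
  exact hP'.le_of_ev (fun x hx => (k x hx).1) fun x hx => (k x hx).2

section Cover

variable {h : M.OK f} (G : ∀ b, Cf h g m b) (o : M.ι → ℕ)

/-- The pieces of the strata. -/
def piece (p : M.ι × Finset M.J) : Set (Loc (KK N)) :=
  (Af (G p.1).yk ∩ M.str p.2) \ ⋃ a ∈ {a | o a < o p.1}, Af (G a).yk

variable (hm : ∀ j, 0 < m j) (hc : ∀ p, H36.Con (vl (G p.1).yk '' piece G o p))

/-- The strata. -/
def strs (p : M.ι × Finset M.J) : Str N g := (G p.1).str hm p.2 (piece G o p) sdiff_subset (hc p)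

theorem lift_of (p : M.ι × Finset M.J) (γ : (strs G o hm hc p).A →ₐ[ℂ] PS)
    (h1 : (strs G o hm hc p).Fin' γ) (a : M.S.A p.1) :
    ((a : KK N), γ a) ∈ gr (ev (γ ∘ (strs G o hm hc p).f)) :=
  lifts ((G p.1).ch h) (M.S.A p.1).val Subtype.val_injective ((G p.1).val_f h) γ (det_ne h1) a

theorem piece_inj (ho : Function.Injective o) {p p' : M.ι × Finset M.J} {P : Loc (KK N)}
    (h1 : P ∈ piece G o p) (h2 : P ∈ piece G o p') : p = p' :=
  Prod.ext (ho (le_antisymm (not_lt.1 fun e => h1.2 (mem_biUnion e h2.1.1))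
    (not_lt.1 fun e => h2.2 (mem_biUnion e h1.1.1))))
    (Finset.ext fun j => (h1.1.2.2 j).symm.trans (h2.1.2.2 j))

/-- The family of strata. -/
def dat (ho : Function.Injective o) : Dat N g where
  R := M.ι × Finset M.J
  s := strs G o hm hc
  ex := fun w _ ⟨j, hj⟩ => by
    classical
    obtain ⟨V, h1, h2⟩ := exists_val (ev w)
    obtain ⟨b₀, hb₀⟩ := h.cov V fun p => h1 _ (mem_dm.2 ⟨_, gr_ip p⟩)
    obtain ⟨b, hb, hmin⟩ := exists_min_image {b | M.S.A b ≤ dm (ev w)} o (toFinite _)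
      ⟨b₀, fun a ha => le_dm ((G b₀).ch h) (M.S.A b₀).val Subtype.val_injective ((G b₀).val_f h)
        h2 h1 (fun a => hb₀ _ a.2) hj ((G b₀).dvd hm j) ⟨a, ha⟩⟩
    obtain ⟨γ, hγ⟩ := exists_lift hb
    obtain ⟨P, hP, e⟩ := exists_locOf
      (Subalgebra.fg_def.2 ⟨_, finite_range _, (G b).adj⟩) (((G b).ch h).pt γ)
    refine ⟨(b, Finset.univ.filter (M.On P)), γ, ((G b).mem_vl h
      (sdiff_subset.trans inter_subset_left) (((G b).ch h).pt γ)).2
      ⟨P, ⟨⟨(G b).mem_af.2 hP, ⟨b, hP⟩, fun i => by simp⟩, fun hn => ?_⟩, e⟩, funext fun i => ?_⟩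
    · obtain ⟨a, ha, h3⟩ := mem_iUnion₂.1 hn
      refine (hmin a fun x hx => ?_).not_gt ha
      obtain ⟨p, hp, q, hq, h0, e'⟩ := hP.frac x (((G a).mem_af.1 h3).le hx)
      rw [(eq_mul_inv_iff_mul_eq₀ (Loc.ne_zero_of_ev h0)).2 e']
      exact mul_mem (hb hp) (mem_dm.2 ⟨_, gr_inv (hγ ⟨q, hq⟩)
        (PowerSeries.mul_inv_cancel _ (e ⟨q, hq⟩ ▸ h0))⟩)
    · exact gr_fun (hγ ((G b).y ((G b).fc i)))
        (by simpa [← (G b).hf] using gr_ip (β := ev w) (X i))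
  ua := fun p γ γ' h1 h2 e => AlgHom.ext fun a =>
    gr_fun (lift_of G o hm hc p γ h1 a) (e ▸ lift_of G o hm hc p γ' h2 a)
  ur := fun p p' γ γ' h1 h2 e => by
    obtain ⟨P, h3, h4⟩ := ((G p.1).mem_vl h (sdiff_subset.trans inter_subset_left)
      (((G p.1).ch h).pt γ)).1 h1.1
    obtain ⟨P', h5, h6⟩ := ((G p'.1).mem_vl h (sdiff_subset.trans inter_subset_left)
      (((G p'.1).ch h).pt γ')).1 h2.1
    have a := lift_of G o hm hc p γ h1
    have a' := lift_of G o hm hc p' γ' h2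
    rw [← e] at a'
    have c := (G p.1).mem_af.1 h3.1.1
    have c' := (G p'.1).mem_af.1 h5.1.1
    obtain rfl : P = P' :=
      Loc.ext' (le_antisymm (le_of_lift a' a c' c h6 h4) (le_of_lift a a' c c' h4 h6))
    exact piece_inj G o ho h3 h5

variable (hC : ConOK (KK N))

theorem con_af {κ : Type} [Finite κ] (y : κ → KK N) : ConP (Af y) := by
  simpa using ConP.pc κ y univ H36.Con.univ

theorem con_empty : ConP (∅ : Set (Loc (KK N))) := by
  simpa using ConP.pc (Fin 0) (fun _ => (0 : KK N)) ∅ H36.Con.empty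

theorem con_union {α : Type} {s : Set α} (hs : s.Finite) {W : α → Set (Loc (KK N))}
    (hW : ∀ a, ConP (W a)) : ConP (⋃ a ∈ s, W a) := by
  induction s, hs using Finite.induction_on with
  | empty => simpa using con_empty
  | insert _ _ ih =>
    rw [biUnion_insert]
    exact (hW _).union ih

include hC in
theorem con_piece (p : M.ι × Finset M.J) : ConP (piece G o p) := by
  refine hC.diff _ _ ?_ (con_union (toFinite _) fun a => con_af _)
  have := ConP.pc _ (G p.1).yk _ (H36.Con.all fun j : M.J => show H36.Con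
    {x | (∃ l, M.S.lab p.1 j = some l ∧ x ((G p.1).zc l) = 0) ↔ j ∈ p.2} from by
      have : H36.Con {x : _ → ℂ | ∃ l, M.S.lab p.1 j = some l ∧ x ((G p.1).zc l) = 0} := by
        cases M.S.lab p.1 j with
        | none => exact H36.Con.empty.of_iff (by simp)
        | some l => exact (H36.Con.coord ((G p.1).zc l)).of_iff (by simp)
      by_cases hj : j ∈ p.2
      · exact this.of_iff (by simp [hj])
      · exact this.compl.of_iff (by simp [hj]))
  refine Eq.subst (motive := ConP) (Set.ext fun P => and_congr_right fun hP => ?_) this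
  have h1 := (G p.1).mem_af.1 hP
  refine Iff.trans ?_ (and_iff_right (show P ∈ M.pts from ⟨_, h1⟩)).symm
  refine forall_congr' fun j => iff_congr ?_ Iff.rfl
  rw [on_iff h h1]
  cases e : M.S.lab p.1 j with
  | none => simp [Mod.η, M.S.η_none _ j e, Loc.ev_one]
  | some l => simp [Mod.η, M.S.η_some _ j l e, vl, Gn.yk, (G p.1).hz]

theorem chi_union {χ : H36.Chi} (hχ : ChiOK χ (KK N)) {α : Type} (s : Finset α)
    {W : α → Set (Loc (KK N))} (hW : ∀ a, ConP (W a)) (hd : Pairwise (Function.onFun Disjoint W)) :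
    chiP χ (⋃ a ∈ s, W a) = ∑ a ∈ s, chiP χ (W a) := by
  classical
  induction s using Finset.induction_on with
  | empty => simpa using hχ.add _ _ con_empty con_empty (disjoint_empty _)
  | insert a s ha ih =>
    rw [Finset.set_biUnion_insert, Finset.sum_insert ha, ← ih]
    exact hχ.add _ _ (hW a) (con_union s.finite_toSet hW)
      (disjoint_iUnion₂_right.2 fun b hb => hd fun e => ha (e ▸ hb))

theorem str_eq (I : Finset M.J) :
    M.str I = ⋃ b ∈ (Finset.univ : Finset M.ι), piece G o (b, I) := by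
  ext P
  simp only [mem_iUnion, Finset.mem_univ, exists_const]
  refine ⟨fun hP => ?_, fun ⟨b, hb⟩ => hb.1.2⟩
  obtain ⟨b, hb, hmin⟩ := exists_min_image {b | P ∈ Af (G b).yk} o (toFinite _)
    (hP.1.imp fun b hb => (G b).mem_af.2 hb)
  refine ⟨b, ⟨hb, hP⟩, fun hn => ?_⟩
  obtain ⟨a, ha, h3⟩ := mem_iUnion₂.1 hn
  exact (hmin a h3).not_gt ha

end Cover

/-- The zeta function for the multiplicities `m`. -/
def zt (M : Mod N) (χ : H36.Chi) (m : M.J → ℕ) : RatFunc ℂ :=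
  ∑ I : Finset M.J, (chiP χ (M.str I) : RatFunc ℂ) *
    ∏ i ∈ I, 1 / ((m i : RatFunc ℂ) * RatFunc.X + (M.k i : RatFunc ℂ) + 1)

theorem con_str (hC : ConOK (KK N)) (h : M.OK f) (hm : Mo M g m) (I : Finset M.J) :
    ConP (M.str I) := by
  have G := fun b => (exists_cf h hm b).some
  rw [str_eq G (fun b => Fintype.equivFin _ b) I]
  exact con_union (Finset.finite_toSet _) fun b => con_piece G _ hC _

theorem exists_dat (hC : ConOK (KK N)) (h : M.OK f) (hm : Mo M g m) :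
    ∃ D : Dat N g, ∀ χ, H36.IsEuler χ → ChiOK χ (KK N) → D.ztop χ = zt M χ m := by
  have G := fun b => (exists_cf h hm b).some
  let o : M.ι → ℕ := fun b => Fintype.equivFin _ b
  have ho : Function.Injective o := Fin.val_injective.comp (Equiv.injective _)
  have hW := con_piece G o hC
  have hs : ∀ p, piece G o p ⊆ Af (G p.1).yk := fun p => sdiff_subset.trans inter_subset_left
  refine ⟨dat G o hm.1 (fun p => hC.img _ _ _ (hW p) ((G p.1).reg (hs p))) ho, fun χ h0 hχ => ?_⟩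
  change ∑ p : M.ι × Finset M.J, (χ (Fin (G p.1).n) (vl (G p.1).yk '' piece G o p) : RatFunc ℂ) *
    ∏ l ∈ lb p.1 p.2, 1 / ((ix p.1 m l : RatFunc ℂ) * RatFunc.X +
      ((ix p.1 M.k l + 1 : ℕ) : RatFunc ℂ)) = _
  rw [zt, Fintype.sum_prod_type_right]
  refine Finset.sum_congr rfl fun I _ => ?_
  rw [str_eq G o I, chi_union hχ _ (fun b => hW (b, I)) fun a b e => disjoint_left.2
    fun P h1 h2 => e (congrArg Prod.fst (piece_inj G o ho h1 h2)), Int.cast_sum, Finset.sum_mul]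
  refine Finset.sum_congr rfl fun b _ => ?_
  rw [hχ.crd _ _ _ (hW (b, I)) ((G b).reg (hs (b, I))) (((G b).inj h).mono (hs (b, I)))]
  rcases (piece G o (b, I)).eq_empty_or_nonempty with e | ⟨P, hP⟩
  · simp [e, h0.empty]
  · rw [prod_ix b I (fun _ n c => 1 / ((n : RatFunc ℂ) * RatFunc.X + ((c + 1 : ℕ) : RatFunc ℂ)))
      (fun i => 1 / ((m i : RatFunc ℂ) * RatFunc.X + (M.k i : RatFunc ℂ) + 1)) m M.k
      (fun j hj e => absurd ((on_iff h ((G b).mem_af.1 hP.1.1) j).1 ((hP.1.2.2 j).2 hj))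
        (by simp [Mod.η, M.S.η_none _ j e, Loc.ev_one]))
      fun j l _ => by rw [Nat.cast_add, Nat.cast_one, add_assoc]]

theorem mo_f (h : M.OK f) : Mo M (fun _ : Unit => f) M.a := ⟨h.pos, fun b => by
  obtain ⟨U, hU, e⟩ := h.ord b
  exact ⟨fun _ => ⟨U, hU.1⟩, fun _ => e.trans (mul_comm _ _), fun φ => ⟨(),
    ((IsUnit.of_mul_eq_one (⟨_, hU.2⟩ : M.S.A b) (Subtype.ext U.mul_inv)).map φ).ne_zero⟩⟩⟩

/-- The zeta function can be computed on every model. -/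
theorem sdat (hC : SCON) (hX : SCHI) : SDAT := by
  intro N f Y π J _ E a k χ hY hχ
  rw [← range_const (ι := Unit)] at hY
  obtain ⟨D, χ₀, h1, h2⟩ := res_all N _ _ Y π J E a k χ hY hχ
  obtain ⟨ψ, h3, h4, h5⟩ := eul mm_all χ₀ h1
  refine ⟨ψ, ⟨h3, (h4 0 _ (conE_iff.2 H36.Con.univ)).trans h1.pt⟩, fun M hM => ?_⟩
  obtain ⟨D', hD⟩ := exists_dat (hC _) hM (mo_f hM)
  obtain ⟨A, hA, hA'⟩ := jet_all.defd _ _ _ D
  obtain ⟨B, hB, hB'⟩ := jet_all.defd _ _ _ D'
  obtain ⟨L, hL⟩ := mm_all _ (hA.union hB).countable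
  rw [← h2 ψ h4]
  exact (lim L _ _ _ (lim_mes dl_all h5 L D (hA' _ (subset_union_left.trans hL)))
    (lim_mes dl_all h5 L D' (hB' _ (subset_union_right.trans hL)))).trans (hD ψ h3 (hX ψ _ h3))

end

end Pool.Agent.MP_ee8c61_ag.M3L
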