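import Pool.Agent.MP_ee8c61_ag.M3L.RCon
import Pool.Agent.MP_ee8c61_ag.M3L.RChi
import Pool.Agent.MP_ee8c61_ag.M3L.Dat
import Pool.Agent.MP_ee8c61_ag.M3L.R1

/-! The Euler characteristic of sets of points and the zeta function of a model. -/

namespace Pool.Agent.MP_ee8c61_ag.M3L

theorem schi : M3.SCHI := ofChi scon

theorem sdat_all : M3.SDAT := sdat scon schi

end Pool.Agent.MP_ee8c61_ag.M3L
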