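import Pool.Agent.MP_ee8c61_ag.H95.All
import Pool.Agent.MP_ee8c61_ag.M3.Eu

/-! Images of constructible sets under polynomial maps; zero sets of families. -/

set_option autoImplicit false

namespace Pool.Agent.MP_ee8c61_ag.M3L

open Set MvPolynomial H95
open Pool.Agent.MP_4f1c5b_al.H95 (ConE)

/-- The theorem of Chevalley. -/
theorem chev {ι κ : Type} [Finite ι] [Finite κ] (φ : κ → MvPolynomial ι ℂ) {S : Set (ι → ℂ)}
    (h : H36.Con S) : H36.Con ((fun x k => eval x (φ k)) '' S) := by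
  obtain ⟨M, a, b⟩ := ((EulA.fi h).and (EulA.Fi.all fun k => polyE_finite (φ k))).ex mm_all
  have hG : ConE M.E {x : ι ⊕ κ → ℂ | x ∘ Sum.inl ∈ S ∧
      ∀ k, x (Sum.inr k) = eval (x ∘ Sum.inl) (φ k)} :=
    conE_and (a.comp _) (conE_all fun k => by
      simpa only [map_sub, eval_X, eval_rename, sub_eq_zero] using
        ((PolyE.X (Sum.inr k)).sub ((b k).rename Sum.inl)).con)
  refine (conE_iff.1 ((M.proj Sum.inr hG).mono le_top)).of_iff fun x => ⟨?_, ?_⟩
  · rintro ⟨x, hx, rfl⟩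
    exact ⟨Sum.elim x fun k => eval x (φ k), ⟨hx, fun _ => rfl⟩, rfl⟩
  · rintro ⟨x, hx, rfl⟩
    exact ⟨_, hx.1, (funext hx.2).symm⟩

/-- Finitely many members of a family of polynomials have the same zero set. -/
theorem fin_zero {ι : Type} [Finite ι] (T : Set (MvPolynomial ι ℂ)) :
    ∃ G : Finset (MvPolynomial ι ℂ), (G : Set _) ⊆ T ∧
      ∀ c, (∀ p ∈ G, eval c p = 0) → ∀ p ∈ T, eval c p = 0 := by
  obtain ⟨G, h1, hG⟩ := (Submodule.fg_span_iff_fg_span_finset_subset T).1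
    ((isNoetherianRing_iff_ideal_fg _).1 inferInstance (Ideal.span T))
  refine ⟨G, h1, fun c h p hp => ?_⟩
  have : Ideal.span T ≤ RingHom.ker (eval c) := hG.le.trans (Ideal.span_le.2 h)
  exact this (Ideal.subset_span hp)

theorem con_zero {ι : Type} [Finite ι] (T : Set (MvPolynomial ι ℂ)) :
    H36.Con {c | ∀ p ∈ T, eval c p = 0} := by
  obtain ⟨G, h1, h2⟩ := fin_zero T
  exact (H36.Con.all fun p : G => H36.Con.zero p.1).of_iff fun c =>
    ⟨fun h p => h _ (h1 p.2), fun h => h2 c fun p hp => h ⟨p, hp⟩⟩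

end Pool.Agent.MP_ee8c61_ag.M3L
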