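import Mathlib

/-! A matrix with nonnegative off-diagonal entries: the largest nonnegative vector with
nonnegative image, and rigidity outside its support. -/

namespace Pool.Agent.MP_ee8c61_ag.M3L

open Finset

/-- `q C D` is the degree of the curve `D` on the curve `C`. There is an effective `v` of
nonnegative degree on every curve such that the curves outside its support miss the support and
are numerically independent. -/
theorem per {F Z : Type} [Field F] [LinearOrder F] [IsStrictOrderedRing F] [Fintype Z]
    (q : Z → Z → F) (hq : ∀ C D, C ≠ D → 0 ≤ q C D) :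
    ∃ v : Z → F, (∀ C, 0 ≤ v C) ∧ (∀ C, 0 ≤ ∑ D, q C D * v D) ∧
      (∀ C D, v C = 0 → v D ≠ 0 → q C D = 0) ∧
      ∀ x : Z → F, (∀ C, v C = 0 → ∑ D, q C D * x D = 0) → ∀ C, v C = 0 → x C = 0 := by
  classical
  let G : (Z → F) → Prop := fun u => (∀ C, 0 ≤ u C) ∧ ∀ C, 0 ≤ ∑ D, q C D * u D
  have hw : ∀ C : Z, ∃ u, G u ∧ ((∃ u', G u' ∧ u' C ≠ 0) → u C ≠ 0) := by
    intro C
    by_cases h : ∃ u', G u' ∧ u' C ≠ 0
    · obtain ⟨u, hu, hC⟩ := h
      exact ⟨u, hu, fun _ => hC⟩
    · exact ⟨0, ⟨fun _ => le_rfl, fun _ => by simp⟩, fun h' => (h h').elim⟩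
  choose w hw hw' using hw
  let v : Z → F := fun D => ∑ C, w C D
  have v0 : ∀ D, 0 ≤ v D := fun D => sum_nonneg fun C _ => (hw C).1 D
  have v1 : ∀ C, 0 ≤ ∑ D, q C D * v D := fun C => by
    simp only [v, mul_sum]
    rw [sum_comm]
    exact sum_nonneg fun E _ => (hw E).2 C
  have mx : ∀ u, G u → ∀ C, v C = 0 → u C = 0 := fun u hu C hC => by
    by_contra h
    exact hw' C ⟨u, hu, h⟩
      ((sum_eq_zero_iff_of_nonneg fun E _ => (hw E).1 C).1 hC C (mem_univ _))
  have off : ∀ (u : Z → F) (C : Z), (∀ D, 0 ≤ u D) → u C = 0 → ∀ D, 0 ≤ q C D * u D :=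
    fun u C hu hC D => by
      by_cases h : C = D
      · rw [← h, hC, mul_zero]
      · exact mul_nonneg (hq C D h) (hu D)
  have orth : ∀ C D, v C = 0 → v D ≠ 0 → q C D = 0 := by
    intro C D hC hD
    have hs : ∑ D, q C D * v D = 0 := by
      by_contra hne
      have hp : 0 < ∑ D, q C D * v D := lt_of_le_of_ne (v1 C) (Ne.symm hne)
      set s := ∑ D, q C D * v D with hs
      have hd : 0 < |q C C| + 1 := by positivity
      let u : Z → F := fun D => v D + if D = C then s / (|q C C| + 1) else 0
      have hu : ∀ E, ∑ D, q E D * u D = ∑ D, q E D * v D + q E C * (s / (|q C C| + 1)) := by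
        intro E
        simp only [u, mul_add, sum_add_distrib, mul_ite, mul_zero, sum_ite_eq', mem_univ, if_true]
      have hG : G u := by
        refine ⟨fun D => add_nonneg (v0 D) ?_, fun E => ?_⟩
        · split_ifs
          · positivity
          · exact le_rfl
        · rw [hu]
          by_cases h : E = C
          · subst h
            rw [← hs]
            have h1 : -|q E E| ≤ q E E := neg_abs_le _
            have h2 : 0 < s / (|q E E| + 1) := by positivity
            have h3 : s = (|q E E| + 1) * (s / (|q E E| + 1)) := by field_simp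
            nlinarith
          · exact add_nonneg (v1 E) (mul_nonneg (hq E C h) (by positivity))
      have := mx u hG C hC
      simp only [u, hC, if_true, zero_add] at this
      exact absurd this (by positivity)
    have := (sum_eq_zero_iff_of_nonneg fun D _ => off v C v0 hC D).1 hs D (mem_univ _)
    exact (mul_eq_zero.1 this).resolve_right hD
  have pos : ∀ x : Z → F, (∀ C, v C = 0 → ∑ D, q C D * x D = 0) → ∀ C, v C = 0 → x C ≤ 0 := by
    intro x hx
    let u : Z → F := fun D => if v D = 0 then max (x D) 0 else 0
    have u0 : ∀ D, 0 ≤ u D := fun D => by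
      simp only [u]
      split_ifs
      · exact le_max_right _ _
      · exact le_rfl
    have hG : G u := by
      refine ⟨u0, fun C => ?_⟩
      by_cases h : u C = 0
      · exact sum_nonneg fun D _ => off u C u0 h D
      · have hC : v C = 0 := by
          by_contra h'
          exact h (if_neg h')
        have hx' : u C = x C := by
          simp only [u, hC, if_true] at h ⊢
          rcases le_total (x C) 0 with h1 | h1
          · exact absurd (max_eq_right h1) h
          · exact max_eq_left h1
        rw [← hx C hC]
        refine sum_le_sum fun D _ => ?_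
        by_cases h1 : C = D
        · rw [← h1, hx']
        by_cases h2 : v D = 0
        · exact mul_le_mul_of_nonneg_left (by simp only [u, h2, if_true]; exact le_max_left _ _)
            (hq C D h1)
        · rw [orth C D hC h2, zero_mul, zero_mul]
    intro C hC
    have := mx u hG C hC
    simp only [u, hC, if_true] at this
    exact (le_max_left _ _).trans this.le
  refine ⟨v, v0, v1, orth, fun x hx C hC => le_antisymm (pos x hx C hC) ?_⟩
  have := pos (fun D => -x D) (fun C hC => by simp [hx C hC]) C hC
  simpa using this

end Pool.Agent.MP_ee8c61_ag.M3L
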