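import Pool.Agent.MP_ee8c61_ag.M3E.Kit
import Pool.Agent.MP_ee8c61_ag.H95.Spec

/-!
Birational charts are open in affine space where the Jacobian is invertible; lifting of arcs.
-/

set_option autoImplicit false

namespace Pool.Agent.MP_ee8c61_ag.M3L

open M3 MvPolynomial H95

noncomputable section

variable {N : ℕ}

theorem der_zero (C : Chart N) {B : Type} [AddCommGroup B] [Module C.A B] [Module ℂ B]
    [IsScalarTower ℂ C.A B] (δ : Derivation ℂ C.A B) (h : ∀ l, δ (C.z l) = 0) (a : C.A) :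
    δ a = 0 := by
  let _ : Algebra (Po N) C.A := (ev (C.y ∘ C.zc)).toRingHom.toAlgebra
  have he : Algebra.FormallyEtale (Po N) C.A := C.et
  let _ : Module (Po N) B := Module.compHom B (algebraMap (Po N) C.A)
  have : IsScalarTower (Po N) C.A B := ⟨fun p x m => mul_smul (algebraMap (Po N) C.A p) x m⟩
  have h1 : ∀ p, δ (algebraMap (Po N) C.A p) = 0 := fun p => by
    induction p using MvPolynomial.induction_on with
    | C c => exact (congrArg δ ((ev (C.y ∘ C.zc)).commutes c)).trans (δ.map_algebraMap c)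
    | add p q hp hq => rw [map_add, map_add, hp, hq, add_zero]
    | mul_X p l hp =>
      have e : algebraMap (Po N) C.A (X l) = C.z l := aeval_X _ l
      rw [map_mul, δ.leibniz, hp, e, h, smul_zero, smul_zero, add_zero]
  let δ' : Derivation (Po N) C.A B := Derivation.mk'
    { toFun := δ
      map_add' := map_add δ
      map_smul' := fun p x => by
        change δ (algebraMap (Po N) C.A p * x) = algebraMap (Po N) C.A p • δ x
        rw [δ.leibniz, h1, smul_zero, add_zero] } δ.leibniz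
  have h2 := δ'.liftKaehlerDifferential_comp_D a
  rw [Subsingleton.elim (KaehlerDifferential.D (Po N) C.A a) 0, map_zero] at h2
  exact h2.symm

theorem der_chain (C : Chart N) {B : Type} [AddCommGroup B] [Module C.A B] [Module ℂ B]
    [IsScalarTower ℂ C.A B] (δ : Derivation ℂ C.A B) (a : C.A) :
    δ a = ∑ l, C.D l a • δ (C.z l) := by
  have e : ∀ x, (∑ l, (LinearMap.toSpanSingleton C.A B (δ (C.z l))).compDer (C.D l)) x =
      ∑ l, C.D l x • δ (C.z l) := fun x => by
    rw [← Derivation.coeFnAddMonoidHom_apply, map_sum, Finset.sum_apply]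
    rfl
  have := der_zero C (δ - ∑ l, (LinearMap.toSpanSingleton C.A B (δ (C.z l))).compDer (C.D l))
    (fun l => by
      rw [Derivation.sub_apply, e]
      simp only [Chart.z, C.dual, ite_smul, one_smul, zero_smul, Finset.sum_ite_eq',
        Finset.mem_univ, if_true, sub_self]) a
  rwa [Derivation.sub_apply, e, sub_eq_zero] at this

/-- Where the Jacobian does not vanish, a birational chart is an open part of affine space. -/
theorem zm (C : Chart N) (j : C.A →ₐ[ℂ] KK N) (hj : Function.Injective j)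
    (hf : ∀ p, j (ev C.f p) = ip N p) (q : Ideal C.A) [q.IsPrime] (hq : C.Jm.det ∉ q) :
    ∃ r : Po N, ev C.f r ∉ q ∧ ∀ a, ∃ (n : ℕ) (p : Po N), ev C.f r ^ n * a = ev C.f p := by
  let _ : Algebra (Po N) C.A := (ev C.f).toRingHom.toAlgebra
  have : IsScalarTower ℂ (Po N) C.A :=
    IsScalarTower.of_algebraMap_eq fun c => ((ev C.f).commutes c).symm
  have : Algebra.FiniteType ℂ C.A := Algebra.FiniteType.of_surjective (ev C.y) C.gen
  have : Algebra.FiniteType (Po N) C.A := Algebra.FiniteType.of_restrictScalars_finiteType ℂ _ _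
  have hu : Algebra.IsUnramifiedAt (Po N) q := by
    have : (⟨q, inferInstance⟩ : PrimeSpectrum C.A) ∈ Algebra.unramifiedLocus (Po N) C.A := by
      rw [Algebra.unramifiedLocus_eq_compl_support, Set.mem_compl_iff, Module.notMem_support_iff']
      intro m
      refine ⟨_, hq, ?_⟩
      let δ := (KaehlerDifferential.D (Po N) C.A).restrictScalars ℂ
      have h1 : ∀ i, ∑ l, C.Jm i l • δ (C.z l) = 0 := fun i => by
        have e : algebraMap (Po N) C.A (X i) = C.f i := aeval_X _ i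
        exact (der_chain C δ (C.f i)).symm.trans
          (e ▸ (KaehlerDifferential.D (Po N) C.A).map_algebraMap _)
      have h2 : ∀ l, C.Jm.det • δ (C.z l) = 0 := fun l => by
        have : ∑ i, C.Jm.adjugate l i • ∑ l', C.Jm i l' • δ (C.z l') = 0 := by simp [h1]
        simp only [Finset.smul_sum, smul_smul] at this
        rw [Finset.sum_comm] at this
        simp only [← Finset.sum_smul, ← Matrix.mul_apply, Matrix.adjugate_mul, Matrix.smul_apply,
          Matrix.one_apply, smul_eq_mul, mul_ite, mul_one, mul_zero, ite_smul, zero_smul,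
          Finset.sum_ite_eq, Finset.mem_univ, if_true] at this
        exact this
      have h3 : m ∈ Submodule.span C.A (Set.range (KaehlerDifferential.D (Po N) C.A)) := by
        rw [KaehlerDifferential.span_range_derivation]
        trivial
      refine Submodule.span_le (p := LinearMap.ker (LinearMap.lsmul C.A _ C.Jm.det)).2 ?_ h3
      rintro _ ⟨a, rfl⟩
      change C.Jm.det • δ a = 0
      rw [der_chain C δ a, Finset.smul_sum]
      exact Finset.sum_eq_zero fun l _ => by rw [smul_comm, h2, smul_zero]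
    exact this
  obtain ⟨r, hr, h1, h2⟩ :=
    Algebra.zariskisMainProperty_iff.1 (Algebra.ZariskisMainProperty.of_finiteType (R := Po N) q)
  have key : ∀ x : C.A, IsIntegral (Po N) x → ∃ p, x = ev C.f p := fun x hx => by
    have h3 : IsIntegral (Po N) (j x) :=
      hx.map ({ j.toRingHom with commutes' := hf } : C.A →ₐ[Po N] KK N)
    obtain ⟨p, hp⟩ := IsIntegrallyClosed.isIntegral_iff.1 h3
    exact ⟨p, hj (hp.symm.trans (hf p).symm)⟩
  obtain ⟨r, rfl⟩ := key r h1
  refine ⟨r, hr, fun a => ?_⟩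
  obtain ⟨n, hn⟩ := h2 a
  exact ⟨n, key _ hn⟩

theorem ip_inj : Function.Injective (ip N) := IsFractionRing.injective (Po N) (KK N)

/-- The graph of the extension of an arc to rational functions. -/
def gr (β : Po N →ₐ[ℂ] PS) : Subalgebra ℂ (KK N × PS) where
  carrier := {x | ∃ r s : Po N, β s ≠ 0 ∧ x.1 * ip N s = ip N r ∧ x.2 * β s = β r}
  mul_mem' := fun ⟨r, s, h, e, f⟩ ⟨r', s', h', e', f'⟩ =>
    ⟨r * r', s * s', by simp [h, h'], by simp only [map_mul, ← e, ← e', Prod.fst_mul]; ring,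
      by simp only [map_mul, ← f, ← f', Prod.snd_mul]; ring⟩
  add_mem' := fun ⟨r, s, h, e, f⟩ ⟨r', s', h', e', f'⟩ =>
    ⟨r * s' + r' * s, s * s', by simp [h, h'],
      by simp only [map_add, map_mul, ← e, ← e', Prod.fst_add]; ring,
      by simp only [map_add, map_mul, ← f, ← f', Prod.snd_add]; ring⟩
  algebraMap_mem' := fun c => ⟨algebraMap ℂ _ c, 1, by simp,
    by rw [map_one, mul_one, AlgHom.commutes]; rfl, by rw [map_one, mul_one, AlgHom.commutes]; rfl⟩

variable {β : Po N →ₐ[ℂ] PS} {x : KK N} {y y' : PS}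

theorem gr_fun (h : (x, y) ∈ gr β) (h' : (x, y') ∈ gr β) : y = y' := by
  obtain ⟨r, s, h1, h2, h3⟩ := sub_mem h h'
  have : r = 0 := ip_inj (by simpa using h2.symm)
  rw [this, map_zero] at h3
  exact sub_eq_zero.1 ((mul_eq_zero.1 h3).resolve_right h1)

theorem gr_ip (p : Po N) : (ip N p, β p) ∈ gr β := ⟨p, 1, by simp, by simp, by simp⟩

theorem gr_inv (h : (x, y) ∈ gr β) (e : y * y' = 1) : (x⁻¹, y') ∈ gr β := by
  obtain ⟨r, s, h1, h2, h3⟩ := h
  have h0 : β r ≠ 0 := h3 ▸ mul_ne_zero (left_ne_zero_of_mul_eq_one e) h1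
  have hx : x ≠ 0 := fun e => h0 (by
    have : r = 0 := ip_inj (by simpa [e] using h2.symm)
    rw [this, map_zero])
  refine ⟨s, r, h0, ?_, ?_⟩
  · rw [← h2, inv_mul_cancel_left₀ hx]
  · change y' * β r = _
    rw [← h3, ← mul_assoc, mul_comm y', e, one_mul]

/-- The rational functions that are defined along the arc. -/
def dm (β : Po N →ₐ[ℂ] PS) : Subalgebra ℂ (KK N) := (gr β).map (AlgHom.fst ℂ _ _)

theorem mem_dm : x ∈ dm β ↔ ∃ y, (x, y) ∈ gr β :=
  ⟨fun ⟨z, h, e⟩ => ⟨z.2, e ▸ h⟩, fun ⟨_, h⟩ => ⟨_, h, rfl⟩⟩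

theorem exists_lift {A : Subalgebra ℂ (KK N)} (h : A ≤ dm β) :
    ∃ γ : A →ₐ[ℂ] PS, ∀ a : A, ((a : KK N), γ a) ∈ gr β := by
  choose γ hγ using fun a : A => mem_dm.1 (h a.2)
  exact ⟨{ toFun := γ
           map_one' := gr_fun (hγ 1) (one_mem _)
           map_mul' := fun a b => gr_fun (hγ _) (mul_mem (hγ a) (hγ b))
           map_zero' := gr_fun (hγ 0) (zero_mem _)
           map_add' := fun a b => gr_fun (hγ _) (add_mem (hγ a) (hγ b))
           commutes' := fun c => gr_fun (hγ _) ((gr β).algebraMap_mem c) }, hγ⟩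

/-- A valuation ring centred at the base point of the arc. -/
theorem exists_val (β : Po N →ₐ[ℂ] PS) : ∃ V : Vl N, (∀ x ∈ dm β, x ∈ V) ∧
    ∀ x y, (x, y) ∈ gr β → PowerSeries.constantCoeff y = 0 → ¬Un V x := by
  obtain ⟨γ, hγ⟩ := exists_lift (le_refl (dm β))
  let φ : (dm β).toSubring →+* ℂ := (PowerSeries.constantCoeff (R := ℂ)).comp γ.toRingHom
  obtain ⟨V, h1, h2⟩ := Ideal.image_subset_nonunits_valuationSubring (RingHom.ker φ)
    (RingHom.ker_ne_top φ)
  refine ⟨V, fun x hx => h1 hx, fun x y h e hu => ?_⟩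
  have h3 : x ∈ V.nonunits := h2 ⟨⟨x, mem_dm.2 ⟨y, h⟩⟩, by
    change PowerSeries.constantCoeff (γ ⟨x, mem_dm.2 ⟨y, h⟩⟩) = 0
    rw [gr_fun (hγ _) h, e], rfl⟩
  exact (V.mem_nonunits_iff.1 h3).ne (un_iff.1 hu)

/-- An arc in a chart along which the Jacobian does not vanish is the canonical lift. -/
theorem lifts (C : Chart N) (j : C.A →ₐ[ℂ] KK N) (hj : Function.Injective j)
    (hf : ∀ p, j (ev C.f p) = ip N p) (γ : C.A →ₐ[ℂ] PS) (h : γ C.Jm.det ≠ 0) (a : C.A) :
    (j a, γ a) ∈ gr (ev (γ ∘ C.f)) := by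
  have := RingHom.ker_isPrime γ.toRingHom
  obtain ⟨r, hr, H⟩ := zm C j hj hf (RingHom.ker γ.toRingHom) h
  obtain ⟨n, p, e⟩ := H a
  refine ⟨p, r ^ n, ?_, ?_, ?_⟩
  · rw [map_pow, ← C.map_ev]
    exact pow_ne_zero _ hr
  · rw [← hf, ← hf, ← e, map_mul, map_pow, mul_comm]
  · rw [← C.map_ev, ← C.map_ev, ← e, map_mul, map_pow, mul_comm]

/-- A chart that contains the centre of `V` contains the arc. -/
theorem le_dm (C : Chart N) (j : C.A →ₐ[ℂ] KK N) (hj : Function.Injective j)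
    (hf : ∀ p, j (ev C.f p) = ip N p) {V : Vl N} (h2 : ∀ x y, (x, y) ∈ gr β → PowerSeries.constantCoeff y = 0 → ¬Un V x)
    (h1 : ∀ x ∈ dm β, x ∈ V) (hV : ∀ a, j a ∈ V) {s : Po N} (hs : β s ≠ 0) {n : ℕ}
    (hd : C.Jm.det ∣ ev C.f s ^ n) (a : C.A) : j a ∈ dm β := by
  have ne : ∀ s, β s ≠ 0 → V.valuation (ip N s) ≠ 0 := fun s hs e => hs (by
    rw [ip_inj (((Valuation.zero_iff _).1 e).trans (map_zero _).symm), map_zero])
  have le : ∀ a, V.valuation (j a) ≤ 1 := fun a => (V.valuation_le_one_iff _).2 (hV a)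
  let q : Ideal C.A :=
    { carrier := {a | ∀ s, β s ≠ 0 → V.valuation (j a) < V.valuation (ip N s)}
      zero_mem' := fun s hs => by simpa using zero_lt_iff.2 (ne s hs)
      add_mem' := fun ha hb s hs => by
        rw [map_add]
        exact Valuation.map_add_lt _ (ha s hs) (hb s hs)
      smul_mem' := fun c a ha s hs => by
        rw [smul_eq_mul, map_mul, map_mul]
        exact (mul_le_of_le_one_left' (le c)).trans_lt (ha s hs) }
  have mem : ∀ a, a ∉ q ↔ ∃ s, β s ≠ 0 ∧ V.valuation (ip N s) ≤ V.valuation (j a) := fun a => by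
    change ¬(∀ s, β s ≠ 0 → _) ↔ _
    push Not
    rfl
  have hp : ∀ s, β s ≠ 0 → ev C.f s ∉ q := fun s hs => (mem _).2 ⟨s, hs, by rw [hf]⟩
  have : q.IsPrime := ⟨(Ideal.ne_top_iff_one q).2 (by simpa using hp 1 (by simp)), fun {a b} h => by
    by_contra! hn
    obtain ⟨s, h3, h4⟩ := (mem a).1 hn.1
    obtain ⟨s', h5, h6⟩ := (mem b).1 hn.2
    refine (mem _).2 ⟨s * s', by simp [h3, h5], ?_⟩ h
    simp only [map_mul]
    exact mul_le_mul' h4 h6⟩
  obtain ⟨r, hr, H⟩ := zm C j hj hf q fun h =>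
    hp s hs (this.mem_of_pow_mem n (q.mem_of_dvd hd h))
  have hr0 : β r ≠ 0 := fun e => by
    obtain ⟨s, h3, h4⟩ := (mem _).1 hr
    have h5 : (ip N r / ip N s, (0 : PS)) ∈ gr β := ⟨r, s, h3,
      div_mul_cancel₀ _ fun e => ne s h3 (by rw [e, map_zero]), by simp [e]⟩
    have h6 := (not_un_iff (h1 _ (mem_dm.2 ⟨_, h5⟩))).1 (h2 _ _ h5 (map_zero _))
    rw [map_div₀, div_lt_one₀ (zero_lt_iff.2 (ne s h3))] at h6
    exact h6.not_ge (hf r ▸ h4)
  obtain ⟨m, p, e⟩ := H a
  have e' : j a * ip N (r ^ m) = ip N p := by rw [← hf, ← hf, ← e, map_mul, map_pow, mul_comm]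
  have hm : β (r ^ m) ≠ 0 := by rw [map_pow]; exact pow_ne_zero _ hr0
  rcases ValuationRing.dvd_total (β (r ^ m)) (β p) with ⟨c, hc⟩ | ⟨c, hc⟩
  · exact mem_dm.2 ⟨c, p, _, hm, e', by rw [hc, mul_comm]⟩
  have h0 : β p ≠ 0 := fun e => hm (by rw [hc, e, zero_mul])
  have h3 : j a ≠ 0 := fun e => ne p h0 (by rw [← e', e, zero_mul, map_zero])
  have h4 : ((j a)⁻¹, c) ∈ gr β :=
    ⟨r ^ m, p, h0, by rw [← e', inv_mul_cancel_left₀ h3], by rw [hc, mul_comm]⟩
  by_cases h5 : PowerSeries.constantCoeff c = 0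
  · exact absurd ⟨inv_ne_zero h3, h1 _ (mem_dm.2 ⟨_, h4⟩), by simpa using hV a⟩ (h2 _ _ h4 h5)
  · exact mem_dm.2 ⟨_, by simpa using gr_inv h4 (PowerSeries.mul_inv_cancel c h5)⟩

end

end Pool.Agent.MP_ee8c61_ag.M3L
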